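import Pool.Agent.J6H32.RU.Spl2

/-!
# Sets of prime ideals given by a subgroup of a Galois group: the natural density
-/

set_option autoImplicit false
set_option linter.unusedSectionVars false

open NumberField IsDedekindDomain Filter Topology

noncomputable section

namespace Pool.Agent.J6H32.RU

open Pool.Agent.K3h30.RS Pool.Agent.K3h8.RS Pool.Agent.K3h43.RS
open Pool.Agent.W401.Cheb (GK chebotarev torsor dens)

theorem chebK : Pool.Agent.W401.Cheb.ChebK :=
  Pool.Agent.W352.ChAbs.main chebotarev fun L => torsor L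

variable {F L : Type} [Field F] [NumberField F] [Field L] [NumberField L] [Algebra F L]

/-- two sets of prime ideals which agree outside a finite set -/
theorem dens_congr {P R : HeightOneSpectrum (𝓞 F) → Prop}
    {bad : Finset (HeightOneSpectrum (𝓞 F))}
    (h : ∀ v, v ∉ bad → (P v ↔ R v)) {c : ℝ} (hP : Tendsto (dens P) atTop (𝓝 c)) :
    Tendsto (fun X : ℕ => (Nat.card {v : HeightOneSpectrum (𝓞 F) //
      R v ∧ Ideal.absNorm v.asIdeal ≤ X} : ℝ) / (Nat.primeCounting X : ℝ)) atTop (𝓝 c) := by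
  classical
  have hle : ∀ (A B : HeightOneSpectrum (𝓞 F) → Prop), (∀ v, v ∉ bad → A v → B v) → ∀ X : ℕ,
      ({v : HeightOneSpectrum (𝓞 F) | A v ∧ Ideal.absNorm v.asIdeal ≤ X}.ncard : ℝ) ≤
        ({v : HeightOneSpectrum (𝓞 F) | B v ∧ Ideal.absNorm v.asIdeal ≤ X}.ncard : ℝ) +
          bad.card := by
    intro A B hAB X
    have h1 : {v : HeightOneSpectrum (𝓞 F) | A v ∧ Ideal.absNorm v.asIdeal ≤ X}.ncard ≤
        ({v : HeightOneSpectrum (𝓞 F) | B v ∧ Ideal.absNorm v.asIdeal ≤ X} ∪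
          (bad : Set (HeightOneSpectrum (𝓞 F)))).ncard := by
      refine Set.ncard_le_ncard ?_ ?_
      · intro v hv
        by_cases hb : v ∈ bad
        · exact Or.inr (Finset.mem_coe.2 hb)
        · exact Or.inl ⟨hAB v hb hv.1, hv.2⟩
      · exact ((Pool.Agent.W352.ChAbs.finite_le X).subset fun v hv => hv.2).union
          bad.finite_toSet
    have h2 := h1.trans (Set.ncard_union_le _ _)
    rw [Set.ncard_coe_finset] at h2
    exact_mod_cast h2
  have hd : Tendsto (fun X : ℕ => (bad.card : ℝ) / (Nat.primeCounting X : ℝ)) atTop (𝓝 0) :=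
    Pool.Agent.W352.ChAbs.const_div_pi _
  have e1 : ∀ X : ℕ, dens P X =
      ({v : HeightOneSpectrum (𝓞 F) | P v ∧ Ideal.absNorm v.asIdeal ≤ X}.ncard : ℝ) /
        (Nat.primeCounting X : ℝ) := by
    intro X
    unfold dens
    congr 2
    rw [← Nat.card_coe_set_eq]
    exact Nat.card_congr (Equiv.subtypeEquivRight fun v => and_comm)
  have e2 : ∀ X : ℕ, (Nat.card {v : HeightOneSpectrum (𝓞 F) //
      R v ∧ Ideal.absNorm v.asIdeal ≤ X} : ℝ) / (Nat.primeCounting X : ℝ) =
      ({v : HeightOneSpectrum (𝓞 F) | R v ∧ Ideal.absNorm v.asIdeal ≤ X}.ncard : ℝ) /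
        (Nat.primeCounting X : ℝ) := by
    intro X
    congr 2
  have hlow : Tendsto (fun X : ℕ => dens P X - (bad.card : ℝ) / (Nat.primeCounting X : ℝ)) atTop
      (𝓝 c) := by
    have := hP.sub hd
    rwa [sub_zero] at this
  have hup : Tendsto (fun X : ℕ => dens P X + (bad.card : ℝ) / (Nat.primeCounting X : ℝ)) atTop
      (𝓝 c) := by
    have := hP.add hd
    rwa [add_zero] at this
  refine tendsto_of_tendsto_of_tendsto_of_le_of_le hlow hup ?_ ?_
  · intro X
    simp only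
    rw [e1, e2, ← sub_div]
    refine div_le_div_of_nonneg_right ?_ (Nat.cast_nonneg _)
    have := hle P R (fun v hv => (h v hv).1) X
    linarith
  · intro X
    simp only
    rw [e1, e2, ← add_div]
    refine div_le_div_of_nonneg_right ?_ (Nat.cast_nonneg _)
    exact hle R P (fun v hv => (h v hv).2) X

variable {Γ₀ : Subgroup (L ≃ₐ[F] L)} {bad : Finset (HeightOneSpectrum (𝓞 F))}
  {R : HeightOneSpectrum (𝓞 F) → Prop}
  (hR : ∀ v : HeightOneSpectrum (𝓞 F), v ∉ bad → ∀ (Q : HeightOneSpectrum (𝓞 L))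
    (g : L ≃ₐ[F] L), FrobAt v Q g → (R v ↔ g ∈ Γ₀))

include hR in
/-- the natural density -/
theorem density_of [IsGalois F L] :
    Tendsto (fun X : ℕ => (Nat.card {v : HeightOneSpectrum (𝓞 F) //
      R v ∧ Ideal.absNorm v.asIdeal ≤ X} : ℝ) / (Nat.primeCounting X : ℝ)) atTop
      (𝓝 (1 / (Γ₀.index : ℝ))) := by
  classical
  have hnorm : Γ₀.Normal := normal_of hR
  let φ : L →ₐ[F] AlgebraicClosure F := IsAlgClosed.lift
  let _ : Algebra L (AlgebraicClosure F) := φ.toRingHom.toAlgebra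
  have : IsScalarTower F L (AlgebraicClosure F) :=
    IsScalarTower.of_algebraMap_eq (fun x => (φ.commutes x).symm)
  have hN : Normal F (AlgebraicClosure F) := IsAlgClosure.normal F (AlgebraicClosure F)
  let res : GK F →* (L ≃ₐ[F] L) := AlgEquiv.restrictNormalHom L
  have hres : ∀ (σ : GK F) (x : L), algebraMap L (AlgebraicClosure F) (res σ x) =
      σ (algebraMap L (AlgebraicClosure F) x) := fun σ x => AlgEquiv.restrictNormal_commutes σ L x
  have hsurj : Function.Surjective res := AlgEquiv.restrictNormalHom_surjective _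
  have hopen : IsOpen ((res.ker : Subgroup (GK F)) : Set (GK F)) := by
    have h1 : (φ.fieldRange).fixingSubgroup ≤ res.ker := by
      intro σ hσ
      rw [IntermediateField.mem_fixingSubgroup_iff] at hσ
      rw [MonoidHom.mem_ker]
      ext x
      apply (algebraMap L (AlgebraicClosure F)).injective
      rw [hres]
      exact hσ _ ⟨x, rfl⟩
    have : FiniteDimensional F φ.fieldRange :=
      LinearMap.finiteDimensional_range φ.toLinearMap
    exact Subgroup.isOpen_mono h1 (IntermediateField.fixingSubgroup_isOpen _)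
  let C : Set (GK F) := {σ | res σ ∈ Γ₀}
  have hC : ∀ σ ∈ C, ∀ τ : GK F, τ * σ * τ⁻¹ ∈ C := by
    intro σ hσ τ
    change res (τ * σ * τ⁻¹) ∈ Γ₀
    rw [map_mul, map_mul, map_inv]
    exact hnorm.conj_mem _ hσ _
  have hCU : ∀ σ ∈ C, ∀ u ∈ res.ker, σ * u ∈ C := by
    intro σ hσ u hu
    change res (σ * u) ∈ Γ₀
    rw [map_mul, MonoidHom.mem_ker.1 hu, mul_one]
    exact hσ
  have key := chebK F res.ker hopen C hC hCU
  rw [Pool.Agent.W352.ChAbs.ratio res.ker res le_rfl C hCU] at key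
  have h1 : res '' C = (Γ₀ : Set (L ≃ₐ[F] L)) := by
    ext g
    constructor
    · rintro ⟨σ, hσ, rfl⟩
      exact hσ
    · intro hg
      obtain ⟨σ, rfl⟩ := hsurj g
      exact ⟨σ, hg, rfl⟩
  have h2 : Nat.card res.range = Nat.card (L ≃ₐ[F] L) := by
    rw [MonoidHom.range_eq_top.2 hsurj]
    exact Nat.card_congr Subgroup.topEquiv.toEquiv
  have h3 : ((Γ₀ : Set (L ≃ₐ[F] L)).ncard : ℝ) / (Nat.card res.range : ℝ) =
      1 / (Γ₀.index : ℝ) := by
    rw [h2, ← Γ₀.card_mul_index, ← Nat.card_coe_set_eq]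
    have h4 : (Nat.card Γ₀ : ℝ) ≠ 0 := by exact_mod_cast Nat.card_pos.ne'
    have h5 : (Γ₀.index : ℝ) ≠ 0 := by exact_mod_cast Γ₀.index_ne_zero_of_finite
    push_cast
    change (Nat.card Γ₀ : ℝ) / _ = _
    field_simp
  rw [h1, h3] at key
  refine dens_congr (bad := bad) ?_ key
  intro v hv
  have hF : ∀ σ : GK F, Pool.Agent.W401.Cheb.IsFrob v σ → (R v ↔ res σ ∈ Γ₀) := by
    rintro σ ⟨I, hI, hIv, hσ⟩
    have hpr := hI.isPrime
    have hcomp : (algebraMap (𝓞 L) (𝓞 (AlgebraicClosure F))).comp (algebraMap (𝓞 F) (𝓞 L)) =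
        algebraMap (𝓞 F) (𝓞 (AlgebraicClosure F)) := by
      ext x
      exact (IsScalarTower.algebraMap_apply F L (AlgebraicClosure F) (x : F)).symm
    have h6 : (I.comap (algebraMap (𝓞 L) (𝓞 (AlgebraicClosure F)))).comap
        (algebraMap (𝓞 F) (𝓞 L)) = v.asIdeal := by
      rw [Ideal.comap_comap, hcomp]
      exact hIv
    have h7 : I.comap (algebraMap (𝓞 L) (𝓞 (AlgebraicClosure F))) ≠ ⊥ := by
      intro h0
      apply v.ne_bot
      rw [← h6, h0]
      exact (RingHom.injective_iff_ker_eq_bot _).mp (FaithfulSMul.algebraMap_injective _ _)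
    refine hR v hv ⟨_, Ideal.comap_isPrime _ _, h7⟩ (res σ) ?_
    rw [frobAt_iff]
    refine ⟨h6, fun x => ?_⟩
    have h8 := hσ (algebraMap (𝓞 L) (𝓞 (AlgebraicClosure F)) x)
    change algebraMap (𝓞 L) (𝓞 (AlgebraicClosure F)) (aut (res σ) x - x ^ _) ∈ I
    have h9 : algebraMap (𝓞 L) (𝓞 (AlgebraicClosure F)) (aut (res σ) x) =
        σ • algebraMap (𝓞 L) (𝓞 (AlgebraicClosure F)) x := by
      apply RingOfIntegers.ext
      exact hres σ (x : L)
    rw [map_sub, map_pow, h9]
    exact h8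
  constructor
  · rintro ⟨σ, hσ, hσF⟩
    exact (hF σ hσF).2 hσ
  · intro hv
    obtain ⟨σ, hσ⟩ := Pool.Agent.W401.Frob.exists_frob v
    exact ⟨σ, (hF σ hσ).1 hv, hσ⟩

end Pool.Agent.J6H32.RU
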