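import Pool.Agent.J6H32.RU.Main2
import Pool.Agent.J6H32.RU.Dns
import Pool.Agent.K3h66.RS.Mono
import Pool.Agent.K3h23.RS.Tors

/-!
# The field of the sets `T₀ ∪ {v}`: the final statements
-/

set_option autoImplicit false
set_option linter.unusedSectionVars false

open NumberField IsDedekindDomain Filter Topology

noncomputable section

namespace Pool.Agent.J6H32.RU

open Pool.Agent.K3h30.RS Pool.Agent.K3h8.RS Pool.Agent.K3h43.RS

variable {F H G : Type} [Field F] [NumberField F] [Field H] [NumberField H] [Algebra F H]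
  [CommGroup G] [Finite G] [MulSemiringAction G H]

/-- the field for `T₀` -/
theorem main_gen [hG : IsGaloisGroup G F H] [DecidableEq (HeightOneSpectrum (𝓞 F))]
    (D : RubinData F H G) {T₁ : Finset (HeightOneSpectrum (𝓞 F))} (h : D.Stark T₁)
    (T₀ : Finset (HeightOneSpectrum (𝓞 F))) (hT₀ : Disjoint D.S T₀) :
    ∃ (K : Type) (_ : Field K) (_ : NumberField K) (_ : Algebra F K) (_ : IsGalois F K)
      (bad : Finset (HeightOneSpectrum (𝓞 F))),
      (∀ v : HeightOneSpectrum (𝓞 F), v ∉ bad → (D.Rubin (insert v T₀) ↔ SplitsIn K v)) ∧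
      Tendsto (fun X : ℕ => (Nat.card {v : HeightOneSpectrum (𝓞 F) //
        D.Rubin (insert v T₀) ∧ Ideal.absNorm v.asIdeal ≤ X} : ℝ) / (Nat.primeCounting X : ℝ))
        atTop (𝓝 (1 / (Module.finrank F K : ℝ))) ∧
      (Module.finrank F K = 1 ↔ ∃ fin : Finset (HeightOneSpectrum (𝓞 F)),
        ∀ v : HeightOneSpectrum (𝓞 F), v ∉ fin → D.Rubin (insert v T₀)) := by
  obtain ⟨L, _, _, _, hgal, Γ₀, bad, hbad⟩ := exists_sub D h T₀ hT₀
  have hR : ∀ v : HeightOneSpectrum (𝓞 F), v ∉ bad → ∀ (Q : HeightOneSpectrum (𝓞 L))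
      (g : L ≃ₐ[F] L), FrobAt v Q g → (D.Rubin (insert v T₀) ↔ g ∈ Γ₀) :=
    fun v hv Q g hg => hbad v hv Q hg.1 g hg.2
  have hnorm : Γ₀.Normal := normal_of hR
  obtain ⟨bad', hbad'⟩ := split_iff hR
  have hdens := density_of hR
  rw [← finrank_fixed] at hdens
  refine ⟨IntermediateField.fixedField Γ₀, inferInstance, inferInstance, inferInstance,
    IsGalois.of_fixedField_normal_subgroup Γ₀, bad', hbad', hdens, ?_⟩
  rw [finrank_fixed, Subgroup.index_eq_one]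
  constructor
  · intro htop
    refine ⟨bad, fun v hv => ?_⟩
    obtain ⟨Q, hQ⟩ := exists_over (L := L) v
    obtain ⟨g, hg⟩ := exists_frob F L v Q hQ
    rw [hbad v hv Q hQ g hg, htop]
    exact Subgroup.mem_top _
  · rintro ⟨fin, hfin⟩
    exact top_iff hR fin hfin

/-- Rubin's conjecture for all `T` from almost all `{v}` -/
theorem all_of_almost [hG : IsGaloisGroup G F H] (D : RubinData F H G)
    (fin : Finset (HeightOneSpectrum (𝓞 F)))
    (h : ∀ v : HeightOneSpectrum (𝓞 F), v ∉ fin → D.Rubin {v}) :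
    ∀ T : Finset (HeightOneSpectrum (𝓞 F)), D.Allowed T → D.Rubin T := by
  rcases dichotomy (Pool.Agent.K3h3.RS.t_UNIQ
    (Pool.Agent.K3h40.RS.t_SPANREG Pool.Agent.K3h40.RS.t_LOGINJ))
    Pool.Agent.K3h66.RS.t_MONO (Pool.Agent.K3h23.RS.t_TORS Pool.Agent.K3h36.RS.t_NOZETA)
    Pool.Agent.K3h23.RS.t_FROBUNIQ (Pool.Agent.K3h8.RS.t_APPROX Pool.Agent.K3h73.RS.t_CHEB)
    (Pool.Agent.K3h36.RS.t_APPROX0 Pool.Agent.K3h73.RS.t_CHEB) Pool.Agent.K3h36.RS.t_NOZETA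
    (Pool.Agent.K3h36.RS.t_PP Pool.Agent.K3h73.RS.t_CHEB) D with h1 | h1
  · exact h1
  · exfalso
    obtain ⟨v, ⟨-, hv⟩, hv'⟩ := exists_of_pos (posProportion_diff h1 fin)
    exact hv (h v hv')

/-- `{v}` is admissible for almost all `v` -/
theorem allowed_single (D : RubinData F H G) :
    ∃ fin : Finset (HeightOneSpectrum (𝓞 F)), ∀ v : HeightOneSpectrum (𝓞 F), v ∉ fin →
      D.Allowed {v} ∧ v ∉ D.S ∧ Module.finrank ℚ F + 1 < ringChar (𝓞 F ⧸ v.asIdeal) := by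
  classical
  refine ⟨D.S ∪ (finite_small F (Module.finrank ℚ F + 1)).toFinset, fun v hv => ?_⟩
  simp only [Finset.mem_union, not_or, Set.Finite.mem_toFinset, Set.mem_ofPred_eq, not_le] at hv
  exact ⟨⟨Finset.disjoint_singleton_right.2 hv.1, Or.inr ⟨v, Finset.mem_singleton_self v, hv.2⟩⟩,
    hv.1, hv.2⟩

/-- larger sets -/
theorem rubin_mono [hG : IsGaloisGroup G F H] (D : RubinData F H G)
    (v : HeightOneSpectrum (𝓞 F)) (hv : v ∉ D.S)
    (hc : Module.finrank ℚ F + 1 < ringChar (𝓞 F ⧸ v.asIdeal)) (h : D.Rubin {v})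
    (T : Finset (HeightOneSpectrum (𝓞 F))) (hT : Disjoint D.S T) (hvT : v ∈ T) : D.Rubin T := by
  obtain ⟨u, e, hi, s⟩ := h
  obtain ⟨u₀, e₀, s₀⟩ := stark_all D ⟨u, e, s⟩ ∅ (Finset.disjoint_empty_right _)
  have hU := Pool.Agent.K3h3.RS.t_UNIQ
      (Pool.Agent.K3h40.RS.t_SPANREG Pool.Agent.K3h40.RS.t_LOGINJ)
  have h1 := intAt_of_rubin hU D (U_le D ∅) u₀ e₀ s₀ {v} ⟨u, e, hi, s⟩
  have h2 := Pool.Agent.K3h66.RS.t_MONO F H G D (D.U ∅) (U_le D ∅) u₀ v T hvT hT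
    (Pool.Agent.K3h23.RS.t_TORS Pool.Agent.K3h36.RS.t_NOZETA F H G D v hv hc) h1
  exact rubin_of_intAt D u₀ e₀ s₀ T hT h2

end Pool.Agent.J6H32.RU
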