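import Pool.Agent.J6H32.RU.Pres
import Pool.Agent.K3h30.RS.Dich

/-!
# The field of the sets `T₀ ∪ {v}`: Rubin's conjecture and the good elements
-/

set_option autoImplicit false
set_option linter.unusedSectionVars false

open NumberField IsDedekindDomain Filter Topology

noncomputable section

namespace Pool.Agent.J6H32.RU

open Pool.Agent.K3h30.RS

theorem descend {P A B : Type} [AddCommGroup P] [AddCommGroup A] [AddCommGroup B] (π : P →+ A)
    (hπ : Function.Surjective π) (F : P →+ B) (hF : ∀ p, π p = 0 → F p = 0) :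
    ∃ f : A →+ B, ∀ p, f (π p) = F p := by
  have hle : π.ker ≤ F.ker := fun p hp => hF p hp
  refine ⟨(QuotientAddGroup.lift π.ker F hle).comp
    (QuotientAddGroup.quotientKerEquivOfSurjective π hπ).symm.toAddMonoidHom, fun p => ?_⟩
  have h1 : (QuotientAddGroup.quotientKerEquivOfSurjective π hπ).symm (π p) =
      QuotientAddGroup.mk p := by
    rw [AddEquiv.symm_apply_eq]
    rfl
  change QuotientAddGroup.lift π.ker F hle ((QuotientAddGroup.quotientKerEquivOfSurjective π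
    hπ).symm (π p)) = F p
  rw [h1]
  rfl

section

variable {F H G P Γ : Type} [Field F] [NumberField F] [Field H] [NumberField H] [Algebra F H]
  [CommGroup G] [Finite G] [MulSemiringAction G H] [AddCommGroup P] [DistribMulAction G P]
  [Group Γ] {N : ℕ}

/-- the pairs which give homomorphisms -/
def Wset {A : Type} [AddCommGroup A] (r : ℕ) (π : P →+ A) (Λ₀ : P →+ MonoidAlgebra ℚ G) :
    Set ((Fin r → MonoidAlgebra ℤ G) × (Fin r → P →+ MonoidAlgebra ℤ G)) :=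
  {w | (∀ i (γ : G) (p : P), w.2 i (γ • p) = MonoidAlgebra.single γ 1 * w.2 i p) ∧
    ∀ i (p : P), π p = 0 → toQ (w.2 i p) + toQ (w.1 i) * Λ₀ p = 0}

theorem delta_single (D : RubinData F H G) (v : HeightOneSpectrum (𝓞 F)) :
    D.delta {v} = 1 - MonoidAlgebra.single (D.σ v)⁻¹ (Ideal.absNorm v.asIdeal : ℚ) := by
  unfold RubinData.delta
  rw [Finset.prod_singleton]

/-- the inclusion -/
def inc (D : RubinData F H G) (T₀ : Finset (HeightOneSpectrum (𝓞 F))) :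
    Additive (D.U T₀) →+ Additive (US D) :=
  MonoidHom.toAdditive (Subgroup.inclusion (U_le D T₀))

/-- the values at the Stark element -/
theorem delta_wval (D : RubinData F H G) (T₀ : Finset (HeightOneSpectrum (𝓞 F)))
    (v : HeightOneSpectrum (𝓞 F)) (u : Wedge G D.r (D.U T₀))
    (π : P →+ Additive (D.U T₀)) (X : Fin u.n → Fin D.r → P)
    (hX : ∀ k j, π (X k j) = Additive.ofMul (u.x k j))
    (Λ : P →+ MonoidAlgebra ℚ G) (a : Fin D.r → MonoidAlgebra ℤ G)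
    (y : Fin D.r → P →+ MonoidAlgebra ℤ G)
    (f : Fin D.r → Additive (US D) →+ MonoidAlgebra ℚ G)
    (hf : ∀ i p, f i (inc D T₀ (π p)) = toQ (y i p) + toQ (a i) * Λ p) :
    D.delta {v} * wval D (U_le D T₀) f u =
      Qf u.c X a y (1 - MonoidAlgebra.single (D.σ v)⁻¹ (Ideal.absNorm v.asIdeal : ℚ))
        (fun p => (1 - MonoidAlgebra.single (D.σ v)⁻¹ (Ideal.absNorm v.asIdeal : ℚ)) * Λ p) := by
  rw [delta_single]
  unfold wval Qf
  rw [Finset.mul_sum]
  refine Finset.sum_congr rfl fun k _ => ?_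
  rw [← mul_det]
  have h1 : (Matrix.of fun i j => f i (Additive.ofMul ⟨(u.x k j : Hˣ), U_le D T₀ (u.x k j).2⟩)) =
      Matrix.of fun i j => toQ (y i (X k j)) + toQ (a i) * Λ (X k j) := by
    ext i j : 1
    simp only [Matrix.of_apply]
    rw [← hf, hX]
    rfl
  rw [h1]
  ring

/-- powers of the `S`-units -/
theorem exists_pow_mem' [hG : IsGaloisGroup G F H] (D : RubinData F H G)
    (T₀ : Finset (HeightOneSpectrum (𝓞 F))) (hT₀ : Disjoint D.S T₀) :
    ∃ m : ℕ, 0 < m ∧ ∀ x : US D, (x : Hˣ) ^ m ∈ D.U T₀ := by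
  let _ := actionA (H := H) (G := G) Pool.Agent.K3h25.RS.t_TRANS
    (D.S : Set (HeightOneSpectrum (𝓞 F))) ∅
  have hfg : AddGroup.FG (Additive (US D)) := fgA Pool.Agent.K3h25.RS.t_OVER D.S
  obtain ⟨w, hw0, hw⟩ := exists_torsion (Additive (US D))
  obtain ⟨d, m, hm0, hm, -, -⟩ := decompose Pool.Agent.K3h73.RS.t_LAM Pool.Agent.K3h12.RSE.t_EXT
    Pool.Agent.K3h44.RS.t_DLOG Pool.Agent.K3h44.RS.t_FROBU Pool.Agent.K3h25.RS.t_TRANS
    Pool.Agent.K3h25.RS.t_OVER D T₀ hT₀ w hw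
  exact ⟨m, hm0, hm⟩

/-- extension of homomorphisms to the `S`-units -/
theorem exists_extend [hG : IsGaloisGroup G F H] (D : RubinData F H G)
    (T₀ : Finset (HeightOneSpectrum (𝓞 F))) (hT₀ : Disjoint D.S T₀)
    (f' : Additive (D.U T₀) →+ MonoidAlgebra ℚ G)
    (hf' : ∀ (γ : G) (x y : D.U T₀), (y : Hˣ) = act γ (x : Hˣ) →
      f' (Additive.ofMul y) = MonoidAlgebra.single γ 1 * f' (Additive.ofMul x)) :
    ∃ f : Additive (US D) →+ MonoidAlgebra ℚ G, IsEquiv D f ∧ ∀ a, f (inc D T₀ a) = f' a := by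
  obtain ⟨m, hm0, hm⟩ := exists_pow_mem' D T₀ hT₀
  let pw : Additive (US D) →+ Additive (D.U T₀) :=
    { toFun := fun x => Additive.ofMul ⟨((Additive.toMul x : US D) : Hˣ) ^ m,
        hm (Additive.toMul x)⟩
      map_zero' := by
        apply Additive.toMul.injective
        ext
        simp
      map_add' := by
        intro x y
        apply Additive.toMul.injective
        ext
        simp [mul_pow] }
  have hm' : (m : ℚ) ≠ 0 := by positivity
  have hms : ∀ z : MonoidAlgebra ℚ G, ((m : ℚ)⁻¹) • (m • z) = z := by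
    intro z
    rw [← Nat.cast_smul_eq_nsmul ℚ, smul_smul, inv_mul_cancel₀ hm', one_smul]
  refine ⟨{ toFun := fun x => ((m : ℚ)⁻¹) • f' (pw x)
            map_zero' := by rw [map_zero, map_zero, smul_zero]
            map_add' := by intro x y; rw [map_add, map_add, smul_add] }, ?_, ?_⟩
  · intro γ x y hxy
    change ((m : ℚ)⁻¹) • f' (pw (Additive.ofMul y)) =
      MonoidAlgebra.single γ 1 * ((m : ℚ)⁻¹ • f' (pw (Additive.ofMul x)))
    rw [mul_smul_comm]
    congr 1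
    refine hf' γ _ _ ?_
    change (y : Hˣ) ^ m = act γ ((x : Hˣ) ^ m)
    rw [hxy, act_pow]
  · intro a
    change ((m : ℚ)⁻¹) • f' (pw (inc D T₀ a)) = f' a
    have h1 : pw (inc D T₀ a) = m • a := rfl
    rw [h1, map_nsmul, hms]

/-- Rubin's conjecture for `T₀ ∪ {v}` in terms of the Stark element for `T₀` -/
theorem rubin_iff_int [hG : IsGaloisGroup G F H] [DecidableEq (HeightOneSpectrum (𝓞 F))]
    (D : RubinData F H G) (T₀ : Finset (HeightOneSpectrum (𝓞 F))) (hT₀ : Disjoint D.S T₀)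
    (u₁ : Wedge G D.r (D.U T₀)) (e₁ : D.InER u₁) (s₁ : D.IsStark T₀ u₁)
    (v : HeightOneSpectrum (𝓞 F)) (hv : v ∉ D.S) (hv₀ : v ∉ T₀) :
    D.Rubin (insert v T₀) ↔ ∀ f : Fin D.r → Additive (US D) →+ MonoidAlgebra ℚ G,
      (∀ i, IsEquiv D (f i)) → (∀ i, IntOn D (insert v T₀) (f i)) →
      D.delta {v} * wval D (U_le D T₀) f u₁ ∈ (toQ (G := G)).range := by
  obtain ⟨u₀, e₀, s₀⟩ := stark_all D ⟨u₁, e₁, s₁⟩ ∅ (Finset.disjoint_empty_right _)
  have hU := Pool.Agent.K3h3.RS.t_UNIQ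
      (Pool.Agent.K3h40.RS.t_SPANREG Pool.Agent.K3h40.RS.t_LOGINJ)
  have hdis : Disjoint D.S (insert v T₀) := Finset.disjoint_insert_right.2 ⟨hv, hT₀⟩
  have hint : D.Rubin (insert v T₀) ↔ IntAt D (U_le D ∅) u₀ (insert v T₀) :=
    ⟨fun h => intAt_of_rubin hU D (U_le D ∅) u₀ e₀ s₀ _ h,
      fun h => rubin_of_intAt D u₀ e₀ s₀ _ hdis h⟩
  rw [hint]
  unfold IntAt
  refine forall_congr' fun f => forall₂_congr fun hf _ => ?_
  have h1 := hU F H G D ∅ T₀ (D.U ∅) (D.U T₀) (U_le D ∅) (U_le D T₀) u₀ u₁ e₀ e₁ s₀ s₁ f hf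
  have h2 : D.delta ∅ = 1 := by
    unfold RubinData.delta
    rw [Finset.prod_empty]
  rw [h2, one_mul] at h1
  rw [delta_insert D hv₀, ← delta_single, mul_assoc, h1]

theorem rubin_iff_good [hG : IsGaloisGroup G F H] [DecidableEq (HeightOneSpectrum (𝓞 F))]
    (D : RubinData F H G) (T₀ : Finset (HeightOneSpectrum (𝓞 F))) (hT₀ : Disjoint D.S T₀)
    [AddGroup.FG P]
    (hP : ∀ p : P, IsOfFinAddOrder p → p = 0) (hN : 0 < N) (π : P →+ Additive (D.U T₀))
    (hπ : Function.Surjective π)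
    (hπe : ∀ (γ : G) (p : P), ((Additive.toMul (π (γ • p)) : D.U T₀) : Hˣ) =
      act γ ((Additive.toMul (π p) : D.U T₀) : Hˣ))
    (K : Coc G P Γ N) (u₁ : Wedge G D.r (D.U T₀)) (e₁ : D.InER u₁) (s₁ : D.IsStark T₀ u₁)
    (X : Fin u₁.n → Fin D.r → P)
    (hX : ∀ k j, π (X k j) = Additive.ofMul (u₁.x k j))
    (hc : ∀ k, (N : MonoidAlgebra ℚ G) * u₁.c k ∈ (toQ (G := G)).range)
    (Λ₀ : P →+ MonoidAlgebra ℚ G) (v : HeightOneSpectrum (𝓞 F)) (hv : v ∉ D.S) (hv₀ : v ∉ T₀)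
    (g : Γ)
    (χ : P →+ QZ) (m : ℕ) (hm : 0 < m) (hχ : ∀ p, m • χ p = 0) (Λ : P →+ MonoidAlgebra ℚ G)
    (hΛ1 : ∀ (γ : G) (p : P), Λ (γ • p) = MonoidAlgebra.single γ 1 * Λ p)
    (hΛ2 : ∀ (γ : G) (p : P), (((Λ p).coeff γ : ℚ) : QZ) = χ (γ⁻¹ • p))
    (hχU : ∀ p, (∀ γ : G, χ (γ • p) = 0) ↔
      ((Additive.toMul (π p) : D.U T₀) : Hˣ) ∈ D.U (insert v T₀))
    (hΛ0 : ∀ p, π p = 0 → Λ p = Λ₀ p)
    (hg1 : ((Ideal.absNorm v.asIdeal : ℕ) : ZMod N) = K.κ g) (hg2 : K.res g = D.σ v)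
    (hg3 : ∀ p, (((((1 - MonoidAlgebra.single (D.σ v)⁻¹ (Ideal.absNorm v.asIdeal : ℚ)) *
      Λ p).coeff 1) / N : ℚ) : QZ) = K.c g p) :
    D.Rubin (insert v T₀) ↔ Good K u₁.c X (Wset D.r π Λ₀) g := by
  -- the good elements
  obtain ⟨k, C, hL⟩ := exists_lift hP hN K g
  have hgood : Good K u₁.c X (Wset D.r π Λ₀) g ↔ ∀ w ∈ Wset D.r π Λ₀,
      Qf u₁.c X w.1 w.2 (1 - MonoidAlgebra.single (D.σ v)⁻¹ (Ideal.absNorm v.asIdeal : ℚ))
        (fun p => (1 - MonoidAlgebra.single (D.σ v)⁻¹ (Ideal.absNorm v.asIdeal : ℚ)) * Λ p) ∈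
        (toQ (G := G)).range := by
    rw [good_iff hN K u₁.c X hc _ g hL]
    refine forall₂_congr fun w _ => ?_
    have h1 := lift_unique hN K u₁.c X hc w.1 w.2 g (fun p => (1 - MonoidAlgebra.single (D.σ v)⁻¹
      (Ideal.absNorm v.asIdeal : ℚ)) * Λ p) hL hg1 (fun γ p => by rw [hΛ1]; ring) hg3
    rw [hg2] at h1
    rw [hg2]
    exact h1.symm
  rw [rubin_iff_int D T₀ hT₀ u₁ e₁ s₁ v hv hv₀, hgood]
  have hrange : ∀ p, ((Additive.toMul (π p) : D.U T₀) : Hˣ) ∈ D.U (insert v T₀) →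
      Λ p ∈ (toQ (G := G)).range := by
    intro p hp
    rw [mem_range_toQ]
    intro γ
    rw [← QZ_zero, hΛ2]
    exact (hχU p).2 hp γ⁻¹
  have hpre : ∀ x : D.U T₀, ∃ p, π p = Additive.ofMul x := fun x => hπ _
  have hle : D.U (insert v T₀) ≤ D.U T₀ := by
    intro x hx
    refine ⟨hx.1, fun w hw => hx.2 w ?_⟩
    obtain ⟨v', hv', hw'⟩ := above_mem hw
    rw [above_iff hw', Finset.mem_coe]
    exact Finset.mem_insert_of_mem (Finset.mem_coe.1 hv')
  constructor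
  · intro h w hw
    have h1 : ∀ i, ∃ f : Additive (US D) →+ MonoidAlgebra ℚ G, IsEquiv D f ∧ ∀ p,
        f (inc D T₀ (π p)) = toQ (w.2 i p) + toQ (w.1 i) * Λ p := by
      intro i
      obtain ⟨f, hf⟩ := descend π hπ ((toQ (G := G)).toAddMonoidHom.comp (w.2 i) +
        (AddMonoidHom.mulLeft (toQ (w.1 i))).comp Λ) (by
          intro p hp
          have h2 := hw.2 i p hp
          rw [← hΛ0 p hp] at h2
          exact h2)
      have hf2 : ∀ p, f (π p) = toQ (w.2 i p) + toQ (w.1 i) * Λ p := hf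
      obtain ⟨f₂, h3, h4⟩ := exists_extend D T₀ hT₀ f (by
        intro γ x y hxy
        obtain ⟨p, hp⟩ := hpre x
        have h3 : Additive.ofMul y = π (γ • p) := by
          apply Additive.toMul.injective
          apply Subtype.ext
          rw [hπe, hp]
          exact hxy
        rw [h3, ← hp, hf2, hf2, hw.1, hΛ1, map_mul, toQ_single]
        ring)
      exact ⟨f₂, h3, fun p => by rw [h4, hf2]⟩
    choose f hfe hf using h1
    have h2 := h f hfe ?_
    · rw [delta_wval D T₀ v u₁ π X hX Λ w.1 w.2 f hf] at h2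
      exact h2
    · intro i x hx
      obtain ⟨p, hp⟩ := hpre ⟨(x : Hˣ), hle hx⟩
      have h3 : Additive.ofMul x = inc D T₀ (π p) := by
        rw [hp]
        rfl
      rw [h3, hf]
      refine add_mem ⟨_, rfl⟩ (mul_mem ⟨_, rfl⟩ (hrange p ?_))
      rw [hp]
      exact hx
  · intro h f hf hi
    have h1 : ∀ i, ∃ (y : P →+ MonoidAlgebra ℤ G) (a : MonoidAlgebra ℤ G),
        (∀ (γ : G) (p : P), y (γ • p) = MonoidAlgebra.single γ 1 * y p) ∧
        ∀ p, f i (inc D T₀ (π p)) = toQ (y p) + toQ a * Λ p := by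
      intro i
      refine repr χ m hm hχ Λ hΛ1 hΛ2 (((f i).comp (inc D T₀)).comp π) ?_ ?_
      · intro γ p
        exact hf i γ (Additive.toMul (inc D T₀ (π p))) (Additive.toMul (inc D T₀ (π (γ • p))))
          (hπe γ p)
      · intro p hp
        exact hi i (Additive.toMul (inc D T₀ (π p))) ((hχU p).1 hp)
    choose y a hy hya using h1
    rw [delta_wval D T₀ v u₁ π X hX Λ a y f hya]
    refine h (a, y) ⟨hy, fun i p hp => ?_⟩
    rw [← hΛ0 p hp]
    change toQ (y i p) + toQ (a i) * Λ p = 0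
    rw [← hya, hp, map_zero, map_zero]

end

end Pool.Agent.J6H32.RU
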