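import Pool.Agent.J6H32.RU.Main1

/-!
# The field of the sets `T₀ ∪ {v}`: the subgroup of the Galois group
-/

set_option autoImplicit false
set_option linter.unusedSectionVars false

open NumberField IsDedekindDomain Polynomial

noncomputable section

namespace Pool.Agent.J6H32.RU

open Pool.Agent.K3h30.RS Pool.Agent.K3h8.RS Pool.Agent.K3h43.RS

variable {F H G : Type} [Field F] [NumberField F] [Field H] [NumberField H] [Algebra F H]
  [CommGroup G] [Finite G] [MulSemiringAction G H]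

theorem exists_sub [hG : IsGaloisGroup G F H] [DecidableEq (HeightOneSpectrum (𝓞 F))]
    (D : RubinData F H G)
    {T₁ : Finset (HeightOneSpectrum (𝓞 F))} (h : D.Stark T₁)
    (T₀ : Finset (HeightOneSpectrum (𝓞 F))) (hT₀ : Disjoint D.S T₀) :
    ∃ (L : Type) (_ : Field L) (_ : NumberField L) (_ : Algebra F L), IsGalois F L ∧
      ∃ (Γ₀ : Subgroup (L ≃ₐ[F] L)) (bad : Finset (HeightOneSpectrum (𝓞 F))),
        ∀ v : HeightOneSpectrum (𝓞 F), v ∉ bad → ∀ Q : HeightOneSpectrum (𝓞 L),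
          Q.asIdeal.comap (algebraMap (𝓞 F) (𝓞 L)) = v.asIdeal → ∀ g : L ≃ₐ[F] L,
          (∀ x : 𝓞 L, Q.valuation L (g (x : L) - (x : L) ^ (Ideal.absNorm v.asIdeal)) < 1) →
            (D.Rubin (insert v T₀) ↔ g ∈ Γ₀) := by
  obtain ⟨u₁, e₁, s₁⟩ := stark_all D h T₀ hT₀
  let _ : DistribMulAction G (Additive (D.U T₀)) :=
    actionA (H := H) (G := G) Pool.Agent.K3h25.RS.t_TRANS
      (D.S : Set (HeightOneSpectrum (𝓞 F))) (T₀ : Set (HeightOneSpectrum (𝓞 F)))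
  have hfg' : AddGroup.FG (Additive (US D)) := fgA Pool.Agent.K3h25.RS.t_OVER D.S
  have hfg : AddGroup.FG (Additive (D.U T₀)) := by
    have h1 : Module.Finite ℤ (Additive (US D)) := Module.Finite.iff_addGroup_fg.2 hfg'
    have h2 : Module.Finite ℤ (Additive (D.U T₀)) :=
      Module.Finite.of_injective (inc D T₀).toIntLinearMap
        (Subgroup.inclusion_injective (U_le D T₀))
    exact Module.Finite.iff_addGroup_fg.1 h2
  obtain ⟨P, _, _, π, hPfg, hPfree, hP, hπ1, hπ⟩ := exists_pres G (Additive (D.U T₀))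
  have hπe : ∀ (γ : G) (p : P), ((Additive.toMul (π (γ • p)) : D.U T₀) : Hˣ) =
      act γ ((Additive.toMul (π p) : D.U T₀) : Hˣ) := by
    intro γ p
    rw [hπ1]
    rfl
  choose X hX using fun (k : Fin u₁.n) (j : Fin D.r) => hπ (Additive.ofMul (u₁.x k j))
  obtain ⟨N, hN, hc⟩ := exists_denom_all u₁.c
  obtain ⟨w, hw0, hw⟩ := exists_torsion (Additive (D.U T₀))
  obtain ⟨Z, -, hZ⟩ := exists_gen D
  have hM : 0 < N * w := Nat.mul_pos hN hw0
  obtain ⟨L, _, _, _, _, _, hgal, ⟨ζ, hζ⟩, hroots⟩ := exists_field F H N (N * w) hN hM Z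
  obtain ⟨s, hs⟩ := exists_section ((io (L := L) D T₀).comp π) N (by
    intro p
    obtain ⟨y, hy⟩ := hroots _ (hZ _ (U_le D T₀ (Additive.toMul (π p) : D.U T₀).2))
    refine ⟨Additive.ofMul y, ?_⟩
    rw [← ofMul_pow, hy]
    rfl)
  have hs' : ∀ p, N • s p = io D T₀ (π p) := hs
  obtain ⟨res, hres⟩ := exists_res F H L G
  obtain ⟨χ₀, hχ₀⟩ := exists_base hM ζ hζ
  obtain ⟨E, hE⟩ := Pool.Agent.K3h73.RS.lift_rat 1 (fun p hp => by rw [hP p hp, smul_zero])
    (χ₀.comp s)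
  have hE' : ∀ p, ((E p : ℚ) : QZ) = χ₀ (s p) := by
    intro p
    rw [hE, one_smul]
    rfl
  obtain ⟨Λ₀, -, hΛ₀⟩ := exists_hat (G := G) (N • E)
  have hζw : orderOf (ζ ^ w) = N := by
    rw [orderOf_pow_of_dvd hw0.ne' (by rw [hζ]; exact dvd_mul_left _ _), hζ,
      Nat.mul_div_cancel _ hw0]
  obtain ⟨K, hKr, hKκ, hKc⟩ := exists_coc (F := F) s (fun p => io D T₀ (π p)) hs' res (by
    intro g' p'
    apply Additive.toMul.injective
    apply Units.ext
    rw [au_val, io_val, io_val, hres, hπe, act_val]) (ζ ^ w) hζw hN χ₀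
  have hbad2 : {v : HeightOneSpectrum (𝓞 F) | v.valuation F ((N * w : ℕ) : F) < 1}.Finite :=
    finite_lt _ (by exact_mod_cast hM.ne')
  refine ⟨L, inferInstance, inferInstance, inferInstance, hgal,
    goodSub hP hN K u₁.c X hc (Wset D.r π Λ₀), D.S ∪ T₀ ∪ hbad2.toFinset, ?_⟩
  intro v hv Q hQ g hg
  rw [Finset.mem_union, not_or, Finset.mem_union, not_or, Set.Finite.mem_toFinset] at hv
  obtain ⟨⟨hv1, hv0⟩, hv2⟩ := hv
  have hvM : v.valuation F ((N * w : ℕ) : F) = 1 := by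
    refine le_antisymm ?_ (not_lt.mp hv2)
    have h1 : v.valuation F (algebraMap (𝓞 F) F ((N * w : ℕ) : 𝓞 F)) ≤ 1 :=
      v.valuation_le_one (K := F) _
    rwa [map_natCast] at h1
  have hQM : Q.valuation L ((N * w : ℕ) : L) = 1 := by
    have h1 := val_eq v Q hQ _ hvM
    rwa [map_natCast] at h1
  exact rubin_iff_frob D T₀ hT₀ hP hN hM w rfl hw π hπ hπe u₁ e₁ s₁ X hX hc ζ hζ s hs' res hres
    χ₀ hχ₀ E hE' Λ₀ (fun γ p => by rw [hΛ₀, AddMonoidHom.nsmul_apply, nsmul_eq_mul]) K hKr hKκ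
    hKc v hv1 hv0 Q hQ hQM g hg

end Pool.Agent.J6H32.RU
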