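import Pool.Agent.K3h8.RS.Approx
import Pool.Agent.K3h14.RS.Div
import Pool.Agent.K3h73.RS.Cheb

/-!
# Sets of prime ideals given by a subgroup of a Galois group
-/

set_option autoImplicit false
set_option linter.unusedSectionVars false

open NumberField IsDedekindDomain Filter Topology

noncomputable section

namespace Pool.Agent.J6H32.RU

open Pool.Agent.K3h30.RS Pool.Agent.K3h8.RS Pool.Agent.K3h43.RS

variable {F L : Type} [Field F] [NumberField F] [Field L] [NumberField L] [Algebra F L]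

/-- `g` acts as the Frobenius automorphism at the prime ideal `Q` over `v` -/
def FrobAt (v : HeightOneSpectrum (𝓞 F)) (Q : HeightOneSpectrum (𝓞 L)) (g : L ≃ₐ[F] L) : Prop :=
  Q.asIdeal.comap (algebraMap (𝓞 F) (𝓞 L)) = v.asIdeal ∧
    ∀ x : 𝓞 L, Q.valuation L (g (x : L) - (x : L) ^ (Ideal.absNorm v.asIdeal)) < 1

/-- the action of an automorphism on the integers -/
def aut (g : L ≃ₐ[F] L) : 𝓞 L ≃+* 𝓞 L := RingOfIntegers.mapRingEquiv g.toRingEquiv

theorem aut_val (g : L ≃ₐ[F] L) (x : 𝓞 L) : ((aut g x : 𝓞 L) : L) = g (x : L) := rfl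

theorem frobAt_iff (v : HeightOneSpectrum (𝓞 F)) (Q : HeightOneSpectrum (𝓞 L)) (g : L ≃ₐ[F] L) :
    FrobAt v Q g ↔ Q.asIdeal.comap (algebraMap (𝓞 F) (𝓞 L)) = v.asIdeal ∧
      ∀ x : 𝓞 L, aut g x - x ^ (Ideal.absNorm v.asIdeal) ∈ Q.asIdeal := by
  unfold FrobAt
  refine and_congr_right fun _ => forall_congr' fun x => ?_
  rw [← Q.valuation_lt_one_iff_mem (K := L)]
  have h1 : ((aut g x - x ^ Ideal.absNorm v.asIdeal : 𝓞 L) : L) =
      g (x : L) - (x : L) ^ (Ideal.absNorm v.asIdeal) := by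
    push_cast
    rfl
  rw [← h1]

/-- conjugate Frobenius automorphisms -/
theorem frobAt_conj (v : HeightOneSpectrum (𝓞 F)) (Q : HeightOneSpectrum (𝓞 L))
    (g h : L ≃ₐ[F] L) (hg : FrobAt v Q g) :
    ∃ Q' : HeightOneSpectrum (𝓞 L), FrobAt v Q' (h * g * h⁻¹) := by
  rw [frobAt_iff] at hg
  obtain ⟨h1, h2⟩ := hg
  have hpr := Q.isPrime
  let I : Ideal (𝓞 L) := Q.asIdeal.comap ((aut h⁻¹ : 𝓞 L ≃+* 𝓞 L) : 𝓞 L →+* 𝓞 L)
  have hI : I.comap (algebraMap (𝓞 F) (𝓞 L)) = v.asIdeal := by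
    rw [← h1]
    ext x
    change aut h⁻¹ (algebraMap (𝓞 F) (𝓞 L) x) ∈ Q.asIdeal ↔ algebraMap (𝓞 F) (𝓞 L) x ∈ Q.asIdeal
    have h3 : aut h⁻¹ (algebraMap (𝓞 F) (𝓞 L) x) = algebraMap (𝓞 F) (𝓞 L) x := by
      apply RingOfIntegers.ext
      rw [aut_val]
      exact (h⁻¹).commutes (x : F)
    rw [h3]
  have hI0 : I ≠ ⊥ := by
    intro h0
    apply v.ne_bot
    rw [← hI, h0]
    exact (RingHom.injective_iff_ker_eq_bot _).mp (FaithfulSMul.algebraMap_injective _ _)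
  refine ⟨⟨I, Ideal.comap_isPrime _ _, hI0⟩, ?_⟩
  rw [frobAt_iff]
  refine ⟨hI, fun x => ?_⟩
  change aut h⁻¹ (aut (h * g * h⁻¹) x - x ^ Ideal.absNorm v.asIdeal) ∈ Q.asIdeal
  have h3 : aut h⁻¹ (aut (h * g * h⁻¹) x - x ^ Ideal.absNorm v.asIdeal) =
      aut g (aut h⁻¹ x) - (aut h⁻¹ x) ^ Ideal.absNorm v.asIdeal := by
    rw [map_sub, map_pow]
    congr 1
    apply RingOfIntegers.ext
    rw [aut_val, aut_val, aut_val, aut_val]
    change (h⁻¹ * (h * g * h⁻¹)) (x : L) = (g * h⁻¹) (x : L)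
    congr 1
    group
  rw [h3]
  exact h2 _

theorem exists_of_pos {P : HeightOneSpectrum (𝓞 F) → Prop} (h : PosProportion P) : ∃ v, P v := by
  by_contra hcon
  push Not at hcon
  obtain ⟨c, hc, hX⟩ := h
  have h1 : ∀ᶠ X : ℕ in atTop, (1 : ℝ) ≤ (Nat.primeCounting X : ℝ) :=
    (tendsto_natCast_atTop_atTop.comp Nat.tendsto_primeCounting).eventually_ge_atTop _
  obtain ⟨X, hX1, hX2⟩ := (hX.and h1).exists
  have h2 : IsEmpty {v : HeightOneSpectrum (𝓞 F) // P v ∧ Ideal.absNorm v.asIdeal ≤ X} :=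
    ⟨fun v => hcon v.1 v.2.1⟩
  rw [Nat.card_of_isEmpty, Nat.cast_zero] at hX1
  have h3 : 0 < c * (Nat.primeCounting X : ℝ) := by positivity
  linarith

/-- Chebotarev -/
theorem exists_frobAt (g : L ≃ₐ[F] L) (bad : Finset (HeightOneSpectrum (𝓞 F))) :
    ∃ v : HeightOneSpectrum (𝓞 F), v ∉ bad ∧ ∃ Q : HeightOneSpectrum (𝓞 L), FrobAt v Q g := by
  obtain ⟨v, hv, Q, hQ, hx⟩ := exists_of_pos (Pool.Agent.K3h73.RS.t_CHEB F L g bad)
  obtain ⟨v', hv', hQ'⟩ := hQ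
  rw [Set.mem_singleton_iff] at hv'
  subst hv'
  exact ⟨v', hv, Q, hQ', hx⟩

section

variable {Γ₀ : Subgroup (L ≃ₐ[F] L)} {bad : Finset (HeightOneSpectrum (𝓞 F))}
  {R : HeightOneSpectrum (𝓞 F) → Prop}
  (hR : ∀ v : HeightOneSpectrum (𝓞 F), v ∉ bad → ∀ (Q : HeightOneSpectrum (𝓞 L))
    (g : L ≃ₐ[F] L), FrobAt v Q g → (R v ↔ g ∈ Γ₀))

include hR in
theorem normal_of : Γ₀.Normal := by
  constructor
  intro g hg h
  obtain ⟨v, hv, Q, hQ⟩ := exists_frobAt g bad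
  obtain ⟨Q', hQ'⟩ := frobAt_conj v Q g h hQ
  rw [← hR v hv Q' _ hQ', hR v hv Q g hQ]
  exact hg

include hR in
theorem top_iff (fin : Finset (HeightOneSpectrum (𝓞 F))) :
    (∀ v : HeightOneSpectrum (𝓞 F), v ∉ fin → R v) → Γ₀ = ⊤ := by
  classical
  intro h
  rw [eq_top_iff]
  intro g _
  obtain ⟨v, hv, Q, hQ⟩ := exists_frobAt g (bad ∪ fin)
  rw [Finset.mem_union, not_or] at hv
  rw [← hR v hv.1 Q g hQ]
  exact h v hv.2

end

/-- small residue fields -/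
theorem norm_eq_of {K : Type} [Field K] [NumberField K] [Algebra F K]
    (v : HeightOneSpectrum (𝓞 F)) (Q : HeightOneSpectrum (𝓞 K))
    (hQ : Q.asIdeal.comap (algebraMap (𝓞 F) (𝓞 K)) = v.asIdeal)
    (h : ∀ x : 𝓞 K, x ^ (Ideal.absNorm v.asIdeal) - x ∈ Q.asIdeal) :
    Ideal.absNorm Q.asIdeal = Ideal.absNorm v.asIdeal := by
  classical
  have hf1 := finite_quot Q
  have hf2 := finite_quot v
  have hm1 := Q.isMaximal
  let _ : Field (𝓞 K ⧸ Q.asIdeal) := Ideal.Quotient.field Q.asIdeal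
  let _ := Fintype.ofFinite (𝓞 K ⧸ Q.asIdeal)
  have hq : 1 < Ideal.absNorm v.asIdeal := by
    have h0 : Ideal.absNorm v.asIdeal ≠ 0 := by
      intro h
      exact v.ne_bot (Ideal.absNorm_eq_zero_iff.mp h)
    have h1 : Ideal.absNorm v.asIdeal ≠ 1 := by
      intro h
      exact v.isPrime.ne_top (Ideal.absNorm_eq_one_iff.mp h)
    omega
  refine le_antisymm ?_ ?_
  · have hroot : ∀ y : 𝓞 K ⧸ Q.asIdeal, y ^ (Ideal.absNorm v.asIdeal) = y := by
      intro y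
      obtain ⟨x, rfl⟩ := Ideal.Quotient.mk_surjective y
      rw [← map_pow, Ideal.Quotient.eq]
      exact h x
    have h4 : (Finset.univ : Finset (𝓞 K ⧸ Q.asIdeal)) ⊆
        (Polynomial.X ^ (Ideal.absNorm v.asIdeal) - Polynomial.X :
          Polynomial (𝓞 K ⧸ Q.asIdeal)).roots.toFinset := by
      intro y _
      rw [Multiset.mem_toFinset, Polynomial.mem_roots
        (FiniteField.X_pow_card_sub_X_ne_zero _ hq)]
      simp [Polynomial.IsRoot.def, hroot y]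
    have h5 := Finset.card_le_card h4
    rw [Finset.card_univ] at h5
    rw [Ideal.absNorm_apply, Submodule.cardQuot_apply, Nat.card_eq_fintype_card]
    refine h5.trans ((Multiset.toFinset_card_le _).trans ((Polynomial.card_roots' _).trans ?_))
    rw [FiniteField.X_pow_card_sub_X_natDegree_eq _ hq]
  · let f : 𝓞 F ⧸ v.asIdeal →+* 𝓞 K ⧸ Q.asIdeal :=
      Ideal.quotientMap Q.asIdeal (algebraMap (𝓞 F) (𝓞 K)) hQ.ge
    have hf : Function.Injective f := Ideal.quotientMap_injective' hQ.le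
    rw [Ideal.absNorm_apply, Ideal.absNorm_apply, Submodule.cardQuot_apply,
      Submodule.cardQuot_apply]
    exact Nat.card_le_card_of_injective f hf

/-- unramified prime ideals -/
theorem squarefree_of_discr {K : Type} [Field K] [NumberField K] [Algebra F K]
    (v : HeightOneSpectrum (𝓞 F)) (h : ¬ v.valuation F ((discr K : ℤ) : F) < 1) :
    Squarefree (v.asIdeal.map (algebraMap (𝓞 F) (𝓞 K))) := by
  have hfin := finite_quot v
  have hmax := v.isMaximal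
  let _ := Ideal.Quotient.field v.asIdeal
  obtain ⟨p, hp⟩ := CharP.exists (𝓞 F ⧸ v.asIdeal)
  have hpp : p.Prime := (CharP.char_is_prime_or_zero (𝓞 F ⧸ v.asIdeal) p).resolve_right
    (fun h0 => by
      subst h0
      have := CharP.charP_to_charZero (𝓞 F ⧸ v.asIdeal)
      exact not_finite (𝓞 F ⧸ v.asIdeal))
  have hpv : ((p : ℕ) : 𝓞 F) ∈ v.asIdeal := by
    rw [← Ideal.Quotient.eq_zero_iff_mem, map_natCast]
    exact CharP.cast_eq_zero _ p
  refine Pool.Agent.K3h14.RS.squarefree_of K p hpp ?_ _ ?_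
  · intro hd
    apply h
    obtain ⟨c, hc⟩ : (p : ℤ) ∣ discr K := Int.natCast_dvd.2 hd
    have h1 : ((discr K : ℤ) : 𝓞 F) ∈ v.asIdeal := by
      rw [hc]
      push_cast
      exact Ideal.mul_mem_right _ _ hpv
    have h2 := (v.valuation_lt_one_iff_mem (K := F) _).2 h1
    have h3 : (((discr K : ℤ) : 𝓞 F) : F) = ((discr K : ℤ) : F) :=
      map_intCast (algebraMap (𝓞 F) F) (discr K)
    rw [← h3]
    exact h2
  · have h3 := Ideal.mem_map_of_mem (algebraMap (𝓞 F) (𝓞 K)) hpv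
    rwa [map_natCast] at h3

end Pool.Agent.J6H32.RU
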