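import Pool.Agent.K3h30.RS.Int
import Pool.Agent.K3h73.RS.Lam
import Pool.Agent.K3h12.RS.Ext

/-!
# The field of the sets `{v}`: algebra

For elements `c_k x_k1 ∧ ... ∧ x_kr` and families `y_i + a_i Λ` of homomorphisms the values of the
determinants are linear functions of the pair `(δ, δ Λ)`. These pairs form a cocycle.
-/

set_option autoImplicit false
set_option linter.unusedSectionVars false

open Filter Topology

noncomputable section

namespace Pool.Agent.J6H32.RU

open Pool.Agent.K3h30.RS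

section det

variable {R : Type} [CommRing R] {r : ℕ}

/-- the minors of the matrix with a further row -/
def minor (a : Fin r → R) (Y : Fin r → Fin r → R) (s : Unit ⊕ Fin r) : R :=
  ((Matrix.fromBlocks (0 : Matrix Unit Unit R) 0 (Matrix.of fun i _ => a i)
    (Matrix.of Y)).updateRow (Sum.inl ()) (Pi.single s 1)).det

theorem det_row {n : Type} [Fintype n] [DecidableEq n] (M : Matrix n n R) (i : n) (v : n → R) :
    (M.updateRow i v).det = ∑ s, v s * (M.updateRow i (Pi.single s 1)).det := by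
  rw [Matrix.det_eq_sum_mul_adjugate_row _ i]
  refine Finset.sum_congr rfl fun s _ => ?_
  rw [Matrix.updateRow_self, Matrix.adjugate_apply, Matrix.updateRow_idem]

theorem det_rank_one (a l : Fin r → R) (Y : Fin r → Fin r → R) :
    Matrix.det (Matrix.of fun i j => Y i j + a i * l j) =
      minor a Y (Sum.inl ()) - ∑ j, l j * minor a Y (Sum.inr j) := by
  have h1 := Matrix.det_fromBlocks_one₁₁ (Matrix.of fun (_ : Unit) j => - l j)
    (Matrix.of fun i (_ : Unit) => a i) (Matrix.of Y)
  have h2 : Matrix.of Y - (Matrix.of fun i (_ : Unit) => a i) * (Matrix.of fun (_ : Unit) j => - l j)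
      = Matrix.of fun i j => Y i j + a i * l j := by
    ext i j
    simp [Matrix.mul_apply]
  rw [h2] at h1
  rw [← h1]
  have h3 : Matrix.fromBlocks (1 : Matrix Unit Unit R) (Matrix.of fun (_ : Unit) j => - l j)
      (Matrix.of fun i (_ : Unit) => a i) (Matrix.of Y) =
      (Matrix.fromBlocks (0 : Matrix Unit Unit R) 0 (Matrix.of fun i _ => a i)
        (Matrix.of Y)).updateRow (Sum.inl ()) (Sum.elim 1 (fun j => - l j)) := by
    ext i j
    rcases i with i | i
    · rw [Matrix.updateRow_self]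
      rcases j with j | j
      · simp
      · simp
    · rw [Matrix.updateRow_ne (by simp)]
      rcases j with j | j <;> simp
  rw [h3, det_row, Fintype.sum_sum_type]
  simp only [Sum.elim_inl, Sum.elim_inr, Finset.univ_unique, Finset.sum_singleton, Pi.one_apply,
    one_mul, neg_mul, Finset.sum_neg_distrib]
  rw [sub_eq_add_neg]
  rfl

/-- the linear function -/
def fn (a : Fin r → R) (Y : Fin r → Fin r → R) (δ : R) (c : Fin r → R) : R :=
  δ * minor a Y (Sum.inl ()) - ∑ j, c j * minor a Y (Sum.inr j)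

theorem mul_det (a l : Fin r → R) (Y : Fin r → Fin r → R) (δ : R) :
    δ * Matrix.det (Matrix.of fun i j => Y i j + a i * l j) = fn a Y δ (fun j => δ * l j) := by
  rw [det_rank_one, fn, mul_sub, Finset.mul_sum]
  simp only [mul_assoc]

theorem fn_add (a : Fin r → R) (Y : Fin r → Fin r → R) (δ δ' : R) (c c' : Fin r → R) :
    fn a Y (δ + δ') (fun j => c j + c' j) = fn a Y δ c + fn a Y δ' c' := by
  unfold fn
  simp only [add_mul, Finset.sum_add_distrib]
  ring

theorem fn_mul (a : Fin r → R) (Y : Fin r → Fin r → R) (z δ : R) (c : Fin r → R) :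
    fn a Y (z * δ) (fun j => z * c j) = z * fn a Y δ c := by
  unfold fn
  rw [mul_sub, Finset.mul_sum]
  simp only [mul_assoc]

theorem minor_mem (Z : Subring R) (a : Fin r → R) (Y : Fin r → Fin r → R) (ha : ∀ i, a i ∈ Z)
    (hY : ∀ i j, Y i j ∈ Z) (s : Unit ⊕ Fin r) : minor a Y s ∈ Z := by
  classical
  unfold minor
  rw [Matrix.det_apply]
  refine sum_mem fun σ _ => ?_
  have h1 : ∀ i j, ((Matrix.fromBlocks (0 : Matrix Unit Unit R) 0 (Matrix.of fun i _ => a i)
      (Matrix.of Y)).updateRow (Sum.inl ()) (Pi.single s 1)) i j ∈ Z := by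
    intro i j
    rcases i with i | i
    · rw [Matrix.updateRow_self]
      by_cases h : j = s
      · subst h
        rw [Pi.single_eq_same]
        exact one_mem _
      · rw [Pi.single_eq_of_ne h]
        exact zero_mem _
    · rw [Matrix.updateRow_ne (by simp)]
      rcases j with j | j
      · simpa using ha i
      · simpa using hY i j
  have h2 := prod_mem (S := Z) (t := Finset.univ) (f := fun i => ((Matrix.fromBlocks
    (0 : Matrix Unit Unit R) 0 (Matrix.of fun i _ => a i)
      (Matrix.of Y)).updateRow (Sum.inl ()) (Pi.single s 1)) (σ i) i) (fun i _ => h1 _ _)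
  rcases Int.units_eq_one_or (Equiv.Perm.sign σ) with h | h
  · rw [h, one_smul]
    exact h2
  · rw [h, Units.neg_smul, one_smul]
    exact neg_mem h2

theorem fn_mem (Z : Subring R) (a : Fin r → R) (Y : Fin r → Fin r → R) (ha : ∀ i, a i ∈ Z)
    (hY : ∀ i j, Y i j ∈ Z) (δ : R) (hδ : δ ∈ Z) (c : Fin r → R) (hc : ∀ j, c j ∈ Z) :
    fn a Y δ c ∈ Z := by
  unfold fn
  exact sub_mem (mul_mem hδ (minor_mem Z a Y ha hY _))
    (sum_mem fun j _ => mul_mem (hc j) (minor_mem Z a Y ha hY _))

end det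

section q

variable {G P : Type} [CommGroup G] [Finite G] [AddCommGroup P] [DistribMulAction G P]
  {r n : ℕ}

/-- the value -/
def Qf (cc : Fin n → MonoidAlgebra ℚ G) (X : Fin n → Fin r → P) (a : Fin r → MonoidAlgebra ℤ G)
    (y : Fin r → P →+ MonoidAlgebra ℤ G) (δ : MonoidAlgebra ℚ G) (C : P → MonoidAlgebra ℚ G) :
    MonoidAlgebra ℚ G :=
  ∑ k, cc k * fn (fun i => toQ (a i)) (fun i j => toQ (y i (X k j))) δ (fun j => C (X k j))

variable (cc : Fin n → MonoidAlgebra ℚ G) (X : Fin n → Fin r → P) (a : Fin r → MonoidAlgebra ℤ G)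
    (y : Fin r → P →+ MonoidAlgebra ℤ G)

theorem Qf_add (δ δ' : MonoidAlgebra ℚ G) (C C' : P → MonoidAlgebra ℚ G) :
    Qf cc X a y (δ + δ') (fun p => C p + C' p) = Qf cc X a y δ C + Qf cc X a y δ' C' := by
  unfold Qf
  rw [← Finset.sum_add_distrib]
  refine Finset.sum_congr rfl fun k _ => ?_
  rw [← mul_add, ← fn_add]

theorem Qf_mul (z δ : MonoidAlgebra ℚ G) (C : P → MonoidAlgebra ℚ G) :
    Qf cc X a y (z * δ) (fun p => z * C p) = z * Qf cc X a y δ C := by
  unfold Qf
  rw [Finset.mul_sum]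
  refine Finset.sum_congr rfl fun k _ => ?_
  rw [fn_mul (z := z)]
  ring

theorem Qf_int (N : ℕ) (hN : ∀ k, (N : MonoidAlgebra ℚ G) * cc k ∈ (toQ (G := G)).range)
    (δ : MonoidAlgebra ℚ G) (C : P → MonoidAlgebra ℚ G) (hδ : δ ∈ (toQ (G := G)).range)
    (hC : ∀ p, C p ∈ (toQ (G := G)).range) :
    Qf cc X a y (N * δ) (fun p => N * C p) ∈ (toQ (G := G)).range := by
  rw [Qf_mul]
  unfold Qf
  rw [Finset.mul_sum]
  refine sum_mem fun k _ => ?_
  rw [← mul_assoc]
  exact mul_mem (hN k) (fn_mem (toQ (G := G)).range _ _ (fun i => ⟨_, rfl⟩)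
    (fun i j => ⟨_, rfl⟩) _ hδ _ (fun j => hC _))

end q

end Pool.Agent.J6H32.RU
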