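import Pool.Agent.J6H32.RU.Pres
import Pool.Agent.K3h8.RS.Approx

/-!
# The field of the sets `{v}`: characters
-/

set_option autoImplicit false
set_option linter.unusedSectionVars false

open NumberField IsDedekindDomain Filter Topology

noncomputable section

namespace Pool.Agent.J6H32.RU

open Pool.Agent.K3h30.RS Pool.Agent.K3h8.RS

/-- extension of characters -/
theorem extend {B C : Type} [AddCommGroup B] [AddCommGroup C] (i : B →+ C)
    (hi : Function.Injective i) (χ : B →+ QZ) : ∃ χ' : C →+ QZ, ∀ b, χ' (i b) = χ b := by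
  obtain ⟨h, hh⟩ := (Module.Baer.of_divisible QZ).extension_property_addMonoidHom i hi χ
  exact ⟨h, fun b => DFunLike.congr_fun hh b⟩

/-- lifts of characters with prescribed values on a saturated subgroup -/
theorem lift_prescribed {P : Type} [AddCommGroup P] [AddGroup.FG P] (K : AddSubgroup P)
    (hK : ∀ (n : ℕ) (p : P), 0 < n → n • p ∈ K → p ∈ K) (τ : P →+ QZ) (E : P →+ ℚ)
    (hE : ∀ p ∈ K, ((E p : ℚ) : QZ) = τ p) :
    ∃ t : P →+ ℚ, (∀ p, ((t p : ℚ) : QZ) = τ p) ∧ ∀ p ∈ K, t p = E p := by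
  let π : ℚ →+ QZ := QuotientAddGroup.mk' (AddSubgroup.zmultiples (1 : ℚ))
  let d : P →+ QZ := τ - π.comp E
  have hd : K ≤ d.ker := by
    intro p hp
    rw [AddMonoidHom.mem_ker]
    change τ p - ((E p : ℚ) : QZ) = 0
    rw [hE p hp, sub_self]
  have hfg : AddGroup.FG (P ⧸ K) := by
    have h1 : Module.Finite ℤ P := Module.Finite.iff_addGroup_fg.2 inferInstance
    have h2 : Module.Finite ℤ (P ⧸ K) := by
      refine Module.Finite.of_surjective (QuotientAddGroup.mk' K).toIntLinearMap ?_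
      exact QuotientAddGroup.mk'_surjective K
    exact Module.Finite.iff_addGroup_fg.1 h2
  obtain ⟨g, hg⟩ := Pool.Agent.K3h73.RS.lift_rat (A := P ⧸ K) 1 (by
    intro a ha
    obtain ⟨p, rfl⟩ := QuotientAddGroup.mk_surjective a
    rw [isOfFinAddOrder_iff_nsmul_eq_zero] at ha
    obtain ⟨n, hn, h⟩ := ha
    rw [one_smul, QuotientAddGroup.eq_zero_iff]
    refine hK n p hn ?_
    rw [← QuotientAddGroup.eq_zero_iff]
    exact h) (QuotientAddGroup.lift K d hd)
  refine ⟨E + g.comp (QuotientAddGroup.mk' K), fun p => ?_, fun p hp => ?_⟩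
  · have h1 := hg (QuotientAddGroup.mk p)
    rw [one_smul] at h1
    change ((E p + g (QuotientAddGroup.mk p) : ℚ) : QZ) = τ p
    rw [AddCircle.coe_add, h1]
    change ((E p : ℚ) : QZ) + (τ p - ((E p : ℚ) : QZ)) = τ p
    abel
  · change E p + g (QuotientAddGroup.mk p) = E p
    rw [(QuotientAddGroup.eq_zero_iff p).2 hp, map_zero, add_zero]

/-- the equivariant map with given coefficients -/
theorem exists_hat {G P : Type} [CommGroup G] [Finite G] [AddCommGroup P] [DistribMulAction G P]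
    (h : P →+ ℚ) : ∃ Λ : P →+ MonoidAlgebra ℚ G,
      (∀ (γ : G) (p : P), Λ (γ • p) = MonoidAlgebra.single γ 1 * Λ p) ∧
      ∀ (γ : G) (p : P), (Λ p).coeff γ = h (γ⁻¹ • p) := by
  classical
  let _ := Fintype.ofFinite G
  refine ⟨{ toFun := fun a => ∑ δ : G, MonoidAlgebra.single δ (h (δ⁻¹ • a))
            map_zero' := by simp
            map_add' := fun a b => by
              rw [← Finset.sum_add_distrib]
              refine Finset.sum_congr rfl fun δ _ => ?_
              rw [smul_add, map_add, MonoidAlgebra.single_add] }, ?_, ?_⟩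
  · intro γ a
    change ∑ δ : G, MonoidAlgebra.single δ (h (δ⁻¹ • γ • a)) =
      MonoidAlgebra.single γ 1 * ∑ δ : G, MonoidAlgebra.single δ (h (δ⁻¹ • a))
    rw [Finset.mul_sum]
    refine (Fintype.sum_equiv (Equiv.mulLeft γ) _ _ fun δ => ?_).symm
    rw [MonoidAlgebra.single_mul_single, one_mul, Equiv.coe_mulLeft, smul_smul, mul_inv_rev,
      inv_mul_cancel_right]
  · intro γ a
    change (∑ δ : G, MonoidAlgebra.single δ (h (δ⁻¹ • a))).coeff γ = _
    rw [MonoidAlgebra.coeff_sum, Finsupp.finsetSum_apply, Finset.sum_eq_single γ]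
    · rw [MonoidAlgebra.coeff_single, Finsupp.single_eq_same]
    · intro b _ hb
      rw [MonoidAlgebra.coeff_single, Finsupp.single_eq_of_ne]
      exact fun h => hb h.symm
    · intro h
      exact absurd (Finset.mem_univ γ) h

section

variable {L : Type} [Field L] [NumberField L] {M : ℕ}

/-- a character with the value `1 / M` at a primitive root of unity -/
theorem exists_base (hM : 0 < M) (ζ : Lˣ) (hζ : orderOf ζ = M) :
    ∃ χ : Additive Lˣ →+ QZ, χ (Additive.ofMul ζ) = ((1 / M : ℚ) : QZ) := by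
  have hf : (zmultiplesHom (Additive Lˣ) (Additive.ofMul ζ)) (M : ℤ) = 0 := by
    rw [zmultiplesHom_apply, ← ofMul_zpow, zpow_natCast, ← hζ, pow_orderOf_eq_one, ofMul_one]
  have hg : (zmultiplesHom QZ (((1 / M : ℚ) : ℚ) : QZ)) (M : ℤ) = 0 := by
    rw [zmultiplesHom_apply, natCast_zsmul, ← AddCircle.coe_nsmul, nsmul_eq_mul, QZ_zero]
    exact ⟨1, by push_cast; field_simp⟩
  let f : ZMod M →+ Additive Lˣ := ZMod.lift M ⟨_, hf⟩
  let g : ZMod M →+ QZ := ZMod.lift M ⟨_, hg⟩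
  have hfi : Function.Injective f := by
    rw [ZMod.lift_injective]
    intro m hm
    have h1 : ζ ^ m = 1 := by
      change (zmultiplesHom (Additive Lˣ) (Additive.ofMul ζ)) m = 0 at hm
      rw [zmultiplesHom_apply, ← ofMul_zpow] at hm
      exact hm
    rw [ZMod.intCast_zmod_eq_zero_iff_dvd, ← hζ]
    exact orderOf_dvd_iff_zpow_eq_one.2 h1
  obtain ⟨χ, hχ⟩ := extend f hfi g
  refine ⟨χ, ?_⟩
  have h1 := hχ 1
  have h2 : f 1 = Additive.ofMul ζ := by
    have := ZMod.lift_coe M ⟨_, hf⟩ 1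
    rw [Int.cast_one] at this
    change ZMod.lift M ⟨_, hf⟩ 1 = _
    rw [this]
    change (zmultiplesHom (Additive Lˣ) (Additive.ofMul ζ)) 1 = _
    rw [zmultiplesHom_apply, one_smul]
  have h3 : g 1 = (((1 / M : ℚ) : ℚ) : QZ) := by
    have := ZMod.lift_coe M ⟨_, hg⟩ 1
    rw [Int.cast_one] at this
    change ZMod.lift M ⟨_, hg⟩ 1 = _
    rw [this]
    change (zmultiplesHom QZ _) 1 = _
    rw [zmultiplesHom_apply, one_smul]
  rw [h2, h3] at h1
  exact h1

/-- a faithful character of the residue field with the value `1 / M` at a primitive root of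
unity -/
theorem exists_local (hM : 0 < M) (ζ : Lˣ) (hζ : orderOf ζ = M) (P : HeightOneSpectrum (𝓞 L))
    (hP : P.valuation L (M : L) = 1) :
    ∃ χ : Additive Lˣ →+ QZ, χ (Additive.ofMul ζ) = ((1 / M : ℚ) : QZ) ∧
      (∀ x : Lˣ, x ∈ unitsAt P → (χ (Additive.ofMul x) = 0 ↔ x ∈ K1 P)) ∧
      ∃ m : ℕ, 0 < m ∧ ∀ x : Lˣ, x ∈ unitsAt P → m • χ (Additive.ofMul x) = 0 := by
  obtain ⟨χ₁, h1, h2⟩ := Pool.Agent.K3h44.RS.t_DLOG L P
  obtain ⟨χ₂, h3⟩ := extend (MonoidHom.toAdditive (unitsAt P).subtype)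
    (fun x y hxy => Subtype.ext hxy) χ₁
  have h3' : ∀ x : Lˣ, ∀ hx : x ∈ unitsAt P, χ₂ (Additive.ofMul x) =
      χ₁ (Additive.ofMul ⟨x, hx⟩) := fun x hx => h3 (Additive.ofMul ⟨x, hx⟩)
  have hn : 0 < Ideal.absNorm P.asIdeal - 1 := by
    have h0 : Ideal.absNorm P.asIdeal ≠ 0 := by
      rw [Ne, Ideal.absNorm_eq_zero_iff]
      exact P.ne_bot
    have h4 : Ideal.absNorm P.asIdeal ≠ 1 := by
      rw [Ne, Ideal.absNorm_eq_one_iff]
      exact P.isPrime.ne_top
    omega
  have hk2 : ∀ x : Lˣ, x ∈ unitsAt P → (χ₂ (Additive.ofMul x) = 0 ↔ x ∈ K1 P) := by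
    intro x hx
    rw [h3' x hx, h1]
    exact Iff.rfl
  have hζM : ζ ^ M = 1 := by rw [← hζ]; exact pow_orderOf_eq_one ζ
  have hζu : ζ ∈ unitsAt P := by
    change P.valuation L (ζ : L) = 1
    have h4 : (P.valuation L (ζ : L)) ^ M = 1 := by
      rw [← map_pow, ← Units.val_pow_eq_pow_val, hζM, Units.val_one, map_one]
    exact (pow_eq_one_iff_of_nonneg zero_le hM.ne').mp h4
  have hord : addOrderOf (χ₂ (Additive.ofMul ζ)) = M := by
    refine Nat.dvd_antisymm ?_ ?_
    · rw [addOrderOf_dvd_iff_nsmul_eq_zero, ← map_nsmul, ← ofMul_pow, hζM, ofMul_one, map_zero]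
    · have h4 := addOrderOf_nsmul_eq_zero (χ₂ (Additive.ofMul ζ))
      rw [← map_nsmul, ← ofMul_pow, hk2 _ (Subgroup.pow_mem _ hζu _)] at h4
      have h5 := root_eq_one P M hP _ (by rw [← pow_mul, mul_comm, pow_mul, hζM, one_pow]) h4
      conv_lhs => rw [← hζ]
      exact orderOf_dvd_of_pow_eq_one h5
  obtain ⟨a, -, ha, hau⟩ := (AddCircle.addOrderOf_eq_pos_iff hM).1 hord
  have : NeZero M := ⟨hM.ne'⟩
  have : NeZero (M * (Ideal.absNorm P.asIdeal - 1)) := ⟨(mul_pos hM hn).ne'⟩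
  obtain ⟨t, ht⟩ := ZMod.unitsMap_surjective (n := M)
    (m := M * (Ideal.absNorm P.asIdeal - 1)) (dvd_mul_right _ _)
    ((ZMod.unitOfCoprime a ha)⁻¹)
  set k : ℕ := (t : ZMod (M * (Ideal.absNorm P.asIdeal - 1))).val with hk
  have hkc : k.Coprime (M * (Ideal.absNorm P.asIdeal - 1)) := ZMod.val_coe_unit_coprime t
  have hka : ((k * a : ℕ) : ZMod M) = 1 := by
    have h4 : ((k : ℕ) : ZMod M) = ((ZMod.unitOfCoprime a ha)⁻¹ : (ZMod M)ˣ) := by
      rw [← ht, ZMod.unitsMap_val, hk]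
      rw [ZMod.natCast_val]
    rw [Nat.cast_mul, h4, ← ZMod.coe_unitOfCoprime a ha, ← Units.val_mul, inv_mul_cancel,
      Units.val_one]
  refine ⟨k • χ₂, ?_, ?_, Ideal.absNorm P.asIdeal - 1, hn, ?_⟩
  · rw [AddMonoidHom.nsmul_apply, ← hau, ← AddCircle.coe_nsmul, nsmul_eq_mul, mul_one,
      ← sub_eq_zero, ← AddCircle.coe_sub, QZ_zero]
    have h4 : ((k * a : ℕ) : ZMod M) = ((1 : ℕ) : ZMod M) := by rw [hka, Nat.cast_one]
    have h5 : (((k * a : ℕ) : ℤ) : ZMod M) = ((1 : ℤ) : ZMod M) := by exact_mod_cast h4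
    rw [ZMod.intCast_eq_intCast_iff_dvd_sub] at h5
    obtain ⟨j, hj⟩ := h5
    refine ⟨-j, ?_⟩
    have h6 : (1 : ℚ) - k * a = M * j := by exact_mod_cast hj
    have h7 : (M : ℚ) ≠ 0 := by positivity
    field_simp
    push_cast
    linarith
  · intro x hx
    rw [← hk2 x hx]
    constructor
    · intro h
      rw [AddMonoidHom.nsmul_apply] at h
      have h4 : (Ideal.absNorm P.asIdeal - 1) • χ₂ (Additive.ofMul x) = 0 := by
        rw [h3' x hx]
        exact h2 _
      have h5 : addOrderOf (χ₂ (Additive.ofMul x)) ∣ 1 := by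
        have h6 : k.Coprime (Ideal.absNorm P.asIdeal - 1) := Nat.Coprime.coprime_mul_left_right hkc
        rw [← Nat.Coprime.gcd_eq_one h6]
        exact Nat.dvd_gcd (addOrderOf_dvd_iff_nsmul_eq_zero.2 h)
          (addOrderOf_dvd_iff_nsmul_eq_zero.2 h4)
      exact AddMonoid.addOrderOf_eq_one_iff.1 (Nat.dvd_one.1 h5)
    · intro h
      rw [AddMonoidHom.nsmul_apply, h, smul_zero]
  · intro x hx
    rw [AddMonoidHom.nsmul_apply, smul_comm, h3' x hx, h2, smul_zero]

/-- two normalised characters agree on the roots of unity -/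
theorem agree (ζ : Lˣ) (hζ : orderOf ζ = M) (hM : 0 < M) (χ χ' : Additive Lˣ →+ QZ)
    (h : χ (Additive.ofMul ζ) = χ' (Additive.ofMul ζ)) (x : Additive Lˣ) (hx : M • x = 0) :
    χ x = χ' x := by
  have : NeZero M := ⟨hM.ne'⟩
  have h1 : IsPrimitiveRoot ζ M := by rw [← hζ]; exact IsPrimitiveRoot.orderOf ζ
  have h2 : IsPrimitiveRoot (ζ : L) M := IsPrimitiveRoot.coe_units_iff.2 h1
  have h3 : ((Additive.toMul x : Lˣ) : L) ^ M = 1 := by
    rw [← Units.val_pow_eq_pow_val, ← toMul_nsmul, hx, toMul_zero, Units.val_one]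
  obtain ⟨i, -, hi⟩ := h2.eq_pow_of_pow_eq_one h3
  have h4 : x = i • Additive.ofMul ζ := by
    apply Additive.toMul.injective
    apply Units.ext
    rw [toMul_nsmul, toMul_ofMul, Units.val_pow_eq_pow_val, hi]
  rw [h4, map_nsmul, map_nsmul, h]

end

end Pool.Agent.J6H32.RU
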