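import Pool.Agent.J6H32.RU.Char

/-!
# The field of the sets `{v}`: the field `L` and the cocycle
-/

set_option autoImplicit false
set_option linter.unusedSectionVars false

open NumberField IsDedekindDomain Polynomial

noncomputable section

namespace Pool.Agent.J6H32.RU

open Pool.Agent.K3h30.RS Pool.Agent.K3h8.RS

/-- roots of the elements of a free group -/
theorem exists_section {P C : Type} [AddCommGroup P] [Module.Free ℤ P] [AddCommGroup C]
    (i : P →+ C) (N : ℕ) (h : ∀ p, ∃ x : C, N • x = i p) :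
    ∃ s : P →+ C, ∀ p, N • s p = i p := by
  let f : C →ₗ[ℤ] C := (nsmulAddMonoidHom N : C →+ C).toIntLinearMap
  have hf : ∀ x, f x = N • x := fun x => rfl
  obtain ⟨g, hg⟩ := Module.projective_lifting_property f.rangeRestrict
    (i.toIntLinearMap.codRestrict (LinearMap.range f) (fun p => by
      obtain ⟨x, hx⟩ := h p
      exact ⟨x, by rw [hf, hx]; rfl⟩)) f.surjective_rangeRestrict
  refine ⟨g.toAddMonoidHom, fun p => ?_⟩
  have h1 := congrArg Subtype.val (LinearMap.congr_fun hg p)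
  exact h1

/-- the field `L` -/
theorem exists_field (F H : Type) [Field F] [NumberField F] [Field H] [NumberField H]
    [Algebra F H] (N M : ℕ) (hN : 0 < N) (hM : 0 < M) (Z : Finset Hˣ) :
    ∃ (L : Type) (_ : Field L) (_ : NumberField L) (_ : Algebra H L) (_ : Algebra F L)
      (_ : IsScalarTower F H L), IsGalois F L ∧ (∃ ζ : Lˣ, orderOf ζ = M) ∧
        ∀ x ∈ Subgroup.closure (Z : Set Hˣ), ∃ y : Lˣ, y ^ N =
          Units.map (algebraMap H L : H →* L) x := by
  classical
  let f0 : H[X] := (X ^ M - C 1) * ∏ z ∈ Z, (X ^ N - C (z : H))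
  have hf0 : f0 ≠ 0 := by
    refine mul_ne_zero (X_pow_sub_C_ne_zero hM _) (Finset.prod_ne_zero_iff.mpr fun z _ =>
      X_pow_sub_C_ne_zero hN _)
  obtain ⟨L, _, _, _, _, _, hgal, hL⟩ := exists_gal F H f0
  have hroot : ∀ g : H[X], g ∣ f0 → (g.map (algebraMap H L)).Splits := by
    intro g hg
    exact Splits.of_dvd hL (Polynomial.map_ne_zero hf0) (Polynomial.map_dvd _ hg)
  refine ⟨L, inferInstance, inferInstance, inferInstance, inferInstance, inferInstance, hgal,
    ?_, ?_⟩
  · have h1 : cyclotomic M H ∣ f0 := by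
      refine Dvd.dvd.mul_right ?_ _
      rw [map_one]
      exact cyclotomic.dvd_X_pow_sub_one M H
    have h2 := hroot _ h1
    rw [map_cyclotomic] at h2
    obtain ⟨ζ, hζ⟩ := h2.exists_eval_eq_zero (degree_cyclotomic_pos M L hM).ne'
    have h3 : IsPrimitiveRoot ζ M := (isRoot_cyclotomic_iff_charZero hM).mp hζ
    have h4 := h3.isUnit_unit hM.ne'
    exact ⟨_, h4.eq_orderOf.symm⟩
  · intro x hx
    induction hx using Subgroup.closure_induction with
    | mem z hz =>
      have h1 : (X ^ N - C (z : H)) ∣ f0 := by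
        refine Dvd.dvd.mul_left ?_ _
        exact Finset.dvd_prod_of_mem (fun z : Hˣ => (X ^ N - C (z : H))) hz
      have h2 := hroot _ h1
      rw [Polynomial.map_sub, Polynomial.map_pow, map_X, map_C] at h2
      obtain ⟨α, hα⟩ := h2.exists_eval_eq_zero (by
        rw [degree_X_pow_sub_C hN]
        exact_mod_cast hN.ne')
      rw [eval_sub, eval_pow, eval_X, eval_C, sub_eq_zero] at hα
      have hα0 : α ≠ 0 := by
        rintro rfl
        rw [zero_pow hN.ne'] at hα
        have h3 : algebraMap H L (z : H) = 0 := hα.symm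
        exact z.ne_zero ((map_eq_zero _).mp h3)
      refine ⟨Units.mk0 α hα0, ?_⟩
      apply Units.ext
      rw [Units.val_pow_eq_pow_val, Units.val_mk0]
      exact hα
    | one => exact ⟨1, by rw [one_pow, map_one]⟩
    | mul x y _ _ hx hy =>
      obtain ⟨u, hu⟩ := hx
      obtain ⟨u', hu'⟩ := hy
      exact ⟨u * u', by rw [mul_pow, map_mul, hu, hu']⟩
    | inv x _ hx =>
      obtain ⟨u, hu⟩ := hx
      exact ⟨u⁻¹, by rw [inv_pow, map_inv, hu]⟩

section res

variable (F H L G : Type) [Field F] [NumberField F] [Field H] [NumberField H] [Field L]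
  [NumberField L] [Algebra F H] [Algebra H L] [Algebra F L] [IsScalarTower F H L]
  [CommGroup G] [Finite G] [MulSemiringAction G H] [IsGaloisGroup G F H]

/-- restriction of automorphisms -/
theorem exists_res : ∃ res : (L ≃ₐ[F] L) →* G, ∀ (g : L ≃ₐ[F] L) (x : H),
    g (algebraMap H L x) = algebraMap H L (res g • x) := by
  have hgal : IsGalois F H := IsGaloisGroup.isGalois G F H
  refine ⟨(IsGaloisGroup.mulEquivAlgEquiv G F H).symm.toMonoidHom.comp
    (AlgEquiv.restrictNormalHom H), fun g x => ?_⟩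
  have h1 : ∀ e : H ≃ₐ[F] H, ((IsGaloisGroup.mulEquivAlgEquiv G F H).symm e) • x = e x := by
    intro e
    have h2 := DFunLike.congr_fun ((IsGaloisGroup.mulEquivAlgEquiv G F H).apply_symm_apply e) x
    exact h2
  change _ = algebraMap H L ((IsGaloisGroup.mulEquivAlgEquiv G F H).symm
    (AlgEquiv.restrictNormalHom H g) • x)
  rw [h1]
  exact (AlgEquiv.restrictNormal_commutes g H x).symm

end res

section coc

variable {F H L G P : Type} [Field F] [NumberField F] [Field H] [NumberField H] [Field L]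
  [NumberField L] [Algebra F H] [Algebra H L] [Algebra F L] [IsScalarTower F H L]
  [CommGroup G] [Finite G] [MulSemiringAction G H] [IsGaloisGroup G F H]
  [AddCommGroup P] [DistribMulAction G P] {N M : ℕ}

/-- the action of an automorphism on the units -/
def au (g : L ≃ₐ[F] L) : Additive Lˣ →+ Additive Lˣ :=
  MonoidHom.toAdditive (Units.map ((g : L →+* L) : L →* L))

theorem au_mul (g h : L ≃ₐ[F] L) (x : Additive Lˣ) : au (g * h) x = au g (au h x) := rfl

theorem au_val (g : L ≃ₐ[F] L) (x : Additive Lˣ) :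
    ((Additive.toMul (au g x) : Lˣ) : L) = g ((Additive.toMul x : Lˣ) : L) := rfl

/-- the roots of unity and the action -/
theorem au_root (ζ : Lˣ) (hζ : orderOf ζ = N) (hN : 0 < N) (g : L ≃ₐ[F] L) (k : ℕ)
    (hk : au g (Additive.ofMul ζ) = k • Additive.ofMul ζ) (x : Additive Lˣ) (hx : N • x = 0) :
    au g x = k • x := by
  have : NeZero N := ⟨hN.ne'⟩
  have h1 : IsPrimitiveRoot ζ N := by rw [← hζ]; exact IsPrimitiveRoot.orderOf ζ
  have h2 : IsPrimitiveRoot (ζ : L) N := IsPrimitiveRoot.coe_units_iff.2 h1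
  have h3 : ((Additive.toMul x : Lˣ) : L) ^ N = 1 := by
    rw [← Units.val_pow_eq_pow_val, ← toMul_nsmul, hx, toMul_zero, Units.val_one]
  obtain ⟨i, -, hi⟩ := h2.eq_pow_of_pow_eq_one h3
  have h4 : x = i • Additive.ofMul ζ := by
    apply Additive.toMul.injective
    apply Units.ext
    rw [toMul_nsmul, toMul_ofMul, Units.val_pow_eq_pow_val, hi]
  rw [h4, map_nsmul, hk, smul_comm]

/-- the cyclotomic character -/
theorem exists_cyc (ζ : Lˣ) (hζ : orderOf ζ = N) (hN : 0 < N) :
    ∃ κ : (L ≃ₐ[F] L) →* ZMod N, ∀ (g : L ≃ₐ[F] L) (k : ℕ), (k : ZMod N) = κ g ↔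
      au g (Additive.ofMul ζ) = k • Additive.ofMul ζ := by
  have : NeZero N := ⟨hN.ne'⟩
  have h1 : IsPrimitiveRoot ζ N := by rw [← hζ]; exact IsPrimitiveRoot.orderOf ζ
  have h2 : IsPrimitiveRoot (ζ : L) N := IsPrimitiveRoot.coe_units_iff.2 h1
  refine ⟨(Units.coeHom (ZMod N)).comp (h2.autToPow F), fun g k => ?_⟩
  have h3 := h2.autToPow_spec F g
  have h4 : au g (Additive.ofMul ζ) =
      ((h2.autToPow F g : (ZMod N)ˣ) : ZMod N).val • Additive.ofMul ζ := by
    apply Additive.toMul.injective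
    apply Units.ext
    rw [au_val, toMul_nsmul, toMul_ofMul, Units.val_pow_eq_pow_val, h3]
  rw [h4]
  change (k : ZMod N) = ((h2.autToPow F g : (ZMod N)ˣ) : ZMod N) ↔ _
  have h5 : ∀ a b : ℕ, (a : ZMod N) = b ↔ a • Additive.ofMul ζ = b • Additive.ofMul ζ := by
    intro a b
    rw [← ofMul_pow, ← ofMul_pow, Additive.ofMul.injective.eq_iff, pow_eq_pow_iff_modEq, hζ,
      ZMod.natCast_eq_natCast_iff]
  rw [← h5, ZMod.natCast_val, ZMod.cast_id', id]
  exact eq_comm

/-- the values of the cocycle, in the group of the roots of unity -/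
def tg (s : P →+ Additive Lˣ) (res : (L ≃ₐ[F] L) →* G) (g : L ≃ₐ[F] L) : P →+ Additive Lˣ :=
  s - (au g).comp (s.comp (DistribSMul.toAddMonoidHom P (res g)⁻¹))

theorem tg_apply (s : P →+ Additive Lˣ) (res : (L ≃ₐ[F] L) →* G) (g : L ≃ₐ[F] L) (p : P) :
    tg s res g p = s p - au g (s ((res g)⁻¹ • p)) := rfl

theorem tg_tors (s : P →+ Additive Lˣ) (res : (L ≃ₐ[F] L) →* G)
    (i : P → Additive Lˣ) (hs : ∀ p, N • s p = i p)
    (hi : ∀ (g : L ≃ₐ[F] L) (p : P), au g (i p) = i (res g • p)) (g : L ≃ₐ[F] L) (p : P) :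
    N • tg s res g p = 0 := by
  rw [tg_apply, nsmul_sub, hs, ← map_nsmul (au g), hs, hi, smul_inv_smul, sub_self]

theorem tg_mul (s : P →+ Additive Lˣ) (res : (L ≃ₐ[F] L) →* G) (g h : L ≃ₐ[F] L) (p : P) :
    tg s res (g * h) p = tg s res g p + au g (tg s res h ((res g)⁻¹ • p)) := by
  rw [tg_apply, tg_apply, tg_apply, au_mul, map_sub, smul_smul, map_mul, mul_inv, mul_comm (res g)⁻¹]
  abel

/-- the cocycle -/
theorem exists_coc (s : P →+ Additive Lˣ) (i : P → Additive Lˣ) (hs : ∀ p, N • s p = i p)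
    (res : (L ≃ₐ[F] L) →* G)
    (hi : ∀ (g : L ≃ₐ[F] L) (p : P), au g (i p) = i (res g • p))
    (ζ : Lˣ) (hζ : orderOf ζ = N) (hN : 0 < N) (χ : Additive Lˣ →+ QZ) :
    ∃ K : Coc G P (L ≃ₐ[F] L) N, K.res = res ∧ (∀ (g : L ≃ₐ[F] L) (k : ℕ), (k : ZMod N) = K.κ g ↔
      au g (Additive.ofMul ζ) = k • Additive.ofMul ζ) ∧ ∀ g p, K.c g p = χ (tg s res g p) := by
  obtain ⟨κ, hκ⟩ := exists_cyc (F := F) ζ hζ hN
  refine ⟨⟨res, κ, fun g => χ.comp (tg s res g), ?_, ?_⟩, rfl, hκ, fun g p => rfl⟩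
  · intro g p
    change N • χ (tg s res g p) = 0
    rw [← map_nsmul, tg_tors s res i hs hi, map_zero]
  · intro g h k hk p
    change χ (tg s res (g * h) p) = χ (tg s res g p) + k • χ (tg s res h ((res g)⁻¹ • p))
    rw [tg_mul, map_add, au_root ζ hζ hN g k ((hκ g k).1 hk) _ (tg_tors s res i hs hi h _),
      map_nsmul]

end coc

end Pool.Agent.J6H32.RU
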