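import Pool.Agent.J6H32.RU.Alg

/-!
# The field of the sets `{v}`: the subgroup of the good elements
-/

set_option autoImplicit false
set_option linter.unusedSectionVars false

open Filter Topology

noncomputable section

namespace Pool.Agent.J6H32.RU

open Pool.Agent.K3h30.RS

/-- a cocycle of the group `Γ` with values in the group of the homomorphisms of `P` to the elements
of order dividing `N` of `ℚ / ℤ` -/
structure Coc (G P Γ : Type) [CommGroup G] [Finite G] [AddCommGroup P] [DistribMulAction G P]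
    [Group Γ] (N : ℕ) where
  /-- the map to `G` -/
  res : Γ →* G
  /-- the cyclotomic character -/
  κ : Γ →* ZMod N
  /-- the cocycle -/
  c : Γ → P →+ QZ
  tors : ∀ g p, N • c g p = 0
  mul : ∀ (g h : Γ) (k : ℕ), (k : ZMod N) = κ g →
    ∀ p, c (g * h) p = c g p + k • c h ((res g)⁻¹ • p)

section

variable {G P Γ : Type} [CommGroup G] [Finite G] [AddCommGroup P] [DistribMulAction G P] [Group Γ]
  {N : ℕ} {r n : ℕ}

/-- a lift of the value of the cocycle at `g` -/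
def Coc.Lift (K : Coc G P Γ N) (g : Γ) (k : ℕ) (C : P →+ MonoidAlgebra ℤ G) : Prop :=
  (k : ZMod N) = K.κ g ∧ (∀ (γ : G) (p : P), C (γ • p) = MonoidAlgebra.single γ 1 * C p) ∧
    ∀ p, (((((C p).coeff 1 : ℤ) : ℚ) / N : ℚ) : QZ) = K.c g p

/-- the good elements -/
def Good (K : Coc G P Γ N) (cc : Fin n → MonoidAlgebra ℚ G) (X : Fin n → Fin r → P)
    (W : Set ((Fin r → MonoidAlgebra ℤ G) × (Fin r → P →+ MonoidAlgebra ℤ G))) (g : Γ) : Prop :=
  ∀ w ∈ W, ∀ (k : ℕ) (C : P →+ MonoidAlgebra ℤ G), K.Lift g k C →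
    Qf cc X w.1 w.2 (1 - MonoidAlgebra.single (K.res g)⁻¹ (k : ℚ)) (fun p => toQ (C p)) ∈
      (toQ (G := G)).range

theorem toQ_single (γ : G) : toQ (MonoidAlgebra.single γ (1 : ℤ)) = MonoidAlgebra.single γ 1 := by
  simp [toQ]

theorem coeff_equiv (C : P → MonoidAlgebra ℚ G)
    (hC : ∀ (γ : G) (p : P), C (γ • p) = MonoidAlgebra.single γ 1 * C p) (γ : G) (p : P) :
    (C p).coeff γ = (C (γ⁻¹ • p)).coeff 1 := by
  rw [hC, coeff_single_mul', inv_inv, mul_one, one_mul]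

/-- divisibility by `N` -/
theorem div_of_zero (hN : 0 < N) (C : P → MonoidAlgebra ℚ G)
    (hC : ∀ (γ : G) (p : P), C (γ • p) = MonoidAlgebra.single γ 1 * C p)
    (h : ∀ p, ((((C p).coeff 1) / N : ℚ) : QZ) = 0) (p : P) :
    ∃ z ∈ (toQ (G := G)).range, C p = N * z := by
  have hN' : (N : ℚ) ≠ 0 := by positivity
  refine ⟨((N : ℚ)⁻¹) • C p, ?_, ?_⟩
  · rw [mem_range_toQ]
    intro γ
    obtain ⟨m, hm⟩ := (QZ_zero _).1 (h (γ⁻¹ • p))
    refine ⟨m, ?_⟩
    rw [MonoidAlgebra.coeff_smul, Finsupp.smul_apply, coeff_equiv C hC, ← hm, smul_eq_mul,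
      div_eq_inv_mul]
  · ext γ
    rw [nat_smul_eq, MonoidAlgebra.coeff_smul, Finsupp.smul_apply, smul_eq_mul,
      mul_inv_cancel_left₀ hN']

/-- two pairs which agree modulo `N` -/
theorem Qf_congr (cc : Fin n → MonoidAlgebra ℚ G) (X : Fin n → Fin r → P)
    (hc : ∀ k, (N : MonoidAlgebra ℚ G) * cc k ∈ (toQ (G := G)).range)
    (a : Fin r → MonoidAlgebra ℤ G) (y : Fin r → P →+ MonoidAlgebra ℤ G)
    (δ₁ δ₂ : MonoidAlgebra ℚ G) (C₁ C₂ : P → MonoidAlgebra ℚ G)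
    (hδ : ∃ z ∈ (toQ (G := G)).range, δ₁ - δ₂ = N * z)
    (hC : ∀ p, ∃ z ∈ (toQ (G := G)).range, C₁ p - C₂ p = N * z)
    (h : Qf cc X a y δ₂ C₂ ∈ (toQ (G := G)).range) :
    Qf cc X a y δ₁ C₁ ∈ (toQ (G := G)).range := by
  obtain ⟨d, hd, hd'⟩ := hδ
  choose E hE hE' using hC
  have h1 : δ₁ = δ₂ + N * d := by rw [← hd']; ring
  have h2 : C₁ = fun p => C₂ p + N * E p := by
    funext p
    rw [← hE']; ring
  rw [h1, h2, Qf_add]
  exact add_mem h (Qf_int cc X a y N hc d E hd hE)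

theorem nat_congr (γ : G) (a b : ℕ) (h : (a : ZMod N) = b) :
    ∃ z ∈ (toQ (G := G)).range,
      MonoidAlgebra.single γ (a : ℚ) - MonoidAlgebra.single γ (b : ℚ) =
        (N : MonoidAlgebra ℚ G) * z := by
  have h1 : ((a : ℤ) : ZMod N) = ((b : ℤ) : ZMod N) := by exact_mod_cast h
  rw [ZMod.intCast_eq_intCast_iff_dvd_sub] at h1
  obtain ⟨m, hm⟩ := h1
  refine ⟨MonoidAlgebra.single γ ((-m : ℤ) : ℚ), ⟨MonoidAlgebra.single γ (-m), by simp [toQ]⟩, ?_⟩
  rw [← MonoidAlgebra.single_sub, ← nsmul_eq_mul, MonoidAlgebra.smul_single, nsmul_eq_mul]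
  congr 1
  have h2 : (b : ℚ) - a = N * m := by exact_mod_cast hm
  push_cast
  linarith

theorem lift_unique (hN : 0 < N) (K : Coc G P Γ N) (cc : Fin n → MonoidAlgebra ℚ G)
    (X : Fin n → Fin r → P)
    (hc : ∀ k, (N : MonoidAlgebra ℚ G) * cc k ∈ (toQ (G := G)).range)
    (a : Fin r → MonoidAlgebra ℤ G) (y : Fin r → P →+ MonoidAlgebra ℤ G) (g : Γ)
    {k k' : ℕ} {C : P →+ MonoidAlgebra ℤ G} (C' : P → MonoidAlgebra ℚ G) (h : K.Lift g k C)
    (hk' : (k' : ZMod N) = K.κ g)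
    (he : ∀ (γ : G) (p : P), C' (γ • p) = MonoidAlgebra.single γ 1 * C' p)
    (hc' : ∀ p, ((((C' p).coeff 1) / N : ℚ) : QZ) = K.c g p) :
    Qf cc X a y (1 - MonoidAlgebra.single (K.res g)⁻¹ (k' : ℚ)) C' ∈ (toQ (G := G)).range ↔
    Qf cc X a y (1 - MonoidAlgebra.single (K.res g)⁻¹ (k : ℚ)) (fun p => toQ (C p)) ∈
      (toQ (G := G)).range := by
  obtain ⟨h1, h2, h3⟩ := h
  obtain ⟨z, hz, hz'⟩ := nat_congr (G := G) (K.res g)⁻¹ k k' (h1.trans hk'.symm)
  have hE : ∀ p, ∃ z ∈ (toQ (G := G)).range, C' p - toQ (C p) = N * z := by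
    refine div_of_zero hN (fun p => C' p - toQ (C p)) ?_ ?_
    · intro γ p
      rw [he, h2, map_mul, toQ_single, mul_sub]
    · intro p
      rw [MonoidAlgebra.coeff_sub, Finsupp.sub_apply, coeff_toQ, sub_div, AddCircle.coe_sub, hc',
        h3, sub_self]
  constructor
  · refine Qf_congr cc X hc a y _ _ _ _ ⟨-z, neg_mem hz, ?_⟩ ?_
    · rw [mul_neg, ← hz']; ring
    · intro p
      obtain ⟨z, hz, hz'⟩ := hE p
      exact ⟨-z, neg_mem hz, by rw [mul_neg, ← hz']; ring⟩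
  · refine Qf_congr cc X hc a y _ _ _ _ ⟨z, hz, ?_⟩ hE
    rw [← hz']; ring

/-- existence of lifts -/
theorem exists_lift [AddGroup.FG P] (hP : ∀ p : P, IsOfFinAddOrder p → p = 0) (hN : 0 < N)
    (K : Coc G P Γ N) (g : Γ) : ∃ k C, K.Lift g k C := by
  have : NeZero N := ⟨hN.ne'⟩
  obtain ⟨Λ, h1, h2⟩ := Pool.Agent.K3h73.RS.t_LAM G P 1 (fun p hp => by rw [hP p hp, smul_zero])
    (K.c g)
  have h3 : ∀ p, ∃ z : MonoidAlgebra ℤ G, toQ z = (N : MonoidAlgebra ℚ G) * Λ p := by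
    intro p
    have h4 : (N : MonoidAlgebra ℚ G) * Λ p ∈ (toQ (G := G)).range := by
      rw [mem_range_toQ]
      intro γ
      rw [← QZ_zero, nat_smul_eq, ← nsmul_eq_mul, AddCircle.coe_nsmul, h2, one_smul, K.tors]
    exact h4
  choose z hz using h3
  refine ⟨(K.κ g).val, { toFun := z, map_zero' := ?_, map_add' := ?_ }, ?_, ?_, ?_⟩
  · apply toQ_injective
    rw [hz, map_zero, map_zero, mul_zero]
  · intro p q
    apply toQ_injective
    rw [hz, map_add, map_add, hz, hz, mul_add]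
  · rw [ZMod.natCast_val, ZMod.cast_id', id]
  · intro γ p
    apply toQ_injective
    change toQ (z (γ • p)) = toQ (_ * z p)
    rw [hz, map_mul, hz, toQ_single, h1]
    ring
  · intro p
    change (((((z p).coeff 1 : ℤ) : ℚ) / N : ℚ) : QZ) = K.c g p
    rw [← coeff_toQ, hz, nat_smul_eq, mul_div_cancel_left₀ _ (by positivity), h2, inv_one, one_smul,
      one_smul]

theorem good_iff (hN : 0 < N) (K : Coc G P Γ N) (cc : Fin n → MonoidAlgebra ℚ G)
    (X : Fin n → Fin r → P)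
    (hc : ∀ k, (N : MonoidAlgebra ℚ G) * cc k ∈ (toQ (G := G)).range)
    (W : Set ((Fin r → MonoidAlgebra ℤ G) × (Fin r → P →+ MonoidAlgebra ℤ G))) (g : Γ)
    {k : ℕ} {C : P →+ MonoidAlgebra ℤ G} (h : K.Lift g k C) :
    Good K cc X W g ↔ ∀ w ∈ W,
      Qf cc X w.1 w.2 (1 - MonoidAlgebra.single (K.res g)⁻¹ (k : ℚ)) (fun p => toQ (C p)) ∈
      (toQ (G := G)).range := by
  constructor
  · intro hg w hw
    exact hg w hw k C h
  · intro hg w hw k' C' h'
    refine (lift_unique hN K cc X hc w.1 w.2 g (fun p => toQ (C' p)) h h'.1 ?_ ?_).2 (hg w hw)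
    · intro γ p
      rw [h'.2.1, map_mul, toQ_single]
    · intro p
      rw [coeff_toQ]
      exact h'.2.2 p

theorem good_one (hN : 0 < N) (K : Coc G P Γ N) (cc : Fin n → MonoidAlgebra ℚ G)
    (X : Fin n → Fin r → P)
    (hc : ∀ k, (N : MonoidAlgebra ℚ G) * cc k ∈ (toQ (G := G)).range)
    (W : Set ((Fin r → MonoidAlgebra ℤ G) × (Fin r → P →+ MonoidAlgebra ℤ G))) :
    Good K cc X W 1 := by
  have h0 : ∀ p, K.c 1 p = 0 := by
    intro p
    have h1 := K.mul 1 1 1 (by rw [map_one, Nat.cast_one]) p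
    rw [mul_one, map_one, inv_one, one_smul, one_smul] at h1
    exact left_eq_add.1 h1
  have hl : K.Lift 1 1 0 := by
    refine ⟨by rw [map_one, Nat.cast_one], fun γ p => by simp, fun p => ?_⟩
    rw [h0]
    simp
  rw [good_iff hN K cc X hc W 1 hl]
  intro w _
  have h1 : (1 - MonoidAlgebra.single (K.res 1)⁻¹ ((1 : ℕ) : ℚ) : MonoidAlgebra ℚ G) = 0 := by
    rw [map_one, inv_one, Nat.cast_one, ← MonoidAlgebra.one_def, sub_self]
  rw [h1]
  have h2 : Qf cc X w.1 w.2 0 (fun p => toQ ((0 : P →+ MonoidAlgebra ℤ G) p)) = 0 := by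
    unfold Qf fn
    refine Finset.sum_eq_zero fun k _ => ?_
    simp
  rw [h2]
  exact zero_mem _

theorem good_mul [AddGroup.FG P] (hP : ∀ p : P, IsOfFinAddOrder p → p = 0) (hN : 0 < N)
    (K : Coc G P Γ N) (cc : Fin n → MonoidAlgebra ℚ G) (X : Fin n → Fin r → P)
    (hc : ∀ k, (N : MonoidAlgebra ℚ G) * cc k ∈ (toQ (G := G)).range)
    (W : Set ((Fin r → MonoidAlgebra ℤ G) × (Fin r → P →+ MonoidAlgebra ℤ G))) (g h : Γ)
    (hg : Good K cc X W g) (hh : Good K cc X W h) : Good K cc X W (g * h) := by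
  obtain ⟨k₁, C₁, h₁⟩ := exists_lift hP hN K g
  obtain ⟨k₂, C₂, h₂⟩ := exists_lift hP hN K h
  intro w hw k C hC
  have e₁ := hg w hw k₁ C₁ h₁
  have e₂ := hh w hw k₂ C₂ h₂
  have hz : (MonoidAlgebra.single (K.res g)⁻¹ (k₁ : ℚ) : MonoidAlgebra ℚ G) ∈
      (toQ (G := G)).range :=
    ⟨MonoidAlgebra.single (K.res g)⁻¹ (k₁ : ℤ), by simp [toQ]⟩
  have e₃ := mul_mem hz e₂
  rw [← Qf_mul] at e₃
  have e₄ := add_mem e₁ e₃
  rw [← Qf_add] at e₄
  refine Qf_congr cc X hc w.1 w.2 _ _ _ _ ?_ ?_ e₄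
  · have h5 : ((k₁ * k₂ : ℕ) : ZMod N) = k := by
      rw [hC.1, map_mul, Nat.cast_mul, h₁.1, h₂.1]
    obtain ⟨z, hz, hz'⟩ := nat_congr (G := G) (K.res (g * h))⁻¹ _ _ h5
    refine ⟨z, hz, ?_⟩
    rw [← hz', mul_sub, mul_one, MonoidAlgebra.single_mul_single, map_mul, mul_inv, Nat.cast_mul]
    ring
  · refine div_of_zero hN (fun p => toQ (C p) - (toQ (C₁ p) +
      MonoidAlgebra.single (K.res g)⁻¹ (k₁ : ℚ) * toQ (C₂ p))) ?_ ?_
    · intro γ p
      rw [hC.2.1, h₁.2.1, h₂.2.1, map_mul, map_mul, map_mul, toQ_single]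
      ring
    · intro p
      have h6 : (MonoidAlgebra.single (K.res g)⁻¹ (k₁ : ℚ) * toQ (C₂ p)).coeff 1 =
          k₁ * (((C₂ ((K.res g)⁻¹ • p)).coeff 1 : ℤ) : ℚ) := by
        rw [coeff_single_mul', inv_inv, mul_one,
          coeff_equiv (fun p => toQ (C₂ p)) (fun γ p => by rw [h₂.2.1, map_mul, toQ_single]),
          coeff_toQ]
      rw [MonoidAlgebra.coeff_sub, Finsupp.sub_apply, MonoidAlgebra.coeff_add, Finsupp.add_apply,
        h6, coeff_toQ, coeff_toQ, sub_div, add_div, mul_div_assoc, AddCircle.coe_sub,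
        AddCircle.coe_add, ← nsmul_eq_mul, AddCircle.coe_nsmul, hC.2.2, h₁.2.2, h₂.2.2,
        K.mul g h k₁ h₁.1, sub_self]

/-- the subgroup of the good elements -/
def goodSub [Finite Γ] [AddGroup.FG P] (hP : ∀ p : P, IsOfFinAddOrder p → p = 0) (hN : 0 < N)
    (K : Coc G P Γ N) (cc : Fin n → MonoidAlgebra ℚ G) (X : Fin n → Fin r → P)
    (hc : ∀ k, (N : MonoidAlgebra ℚ G) * cc k ∈ (toQ (G := G)).range)
    (W : Set ((Fin r → MonoidAlgebra ℤ G) × (Fin r → P →+ MonoidAlgebra ℤ G))) : Subgroup Γ where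
  carrier := {g | Good K cc X W g}
  mul_mem' := fun {g h} hg hh => good_mul hP hN K cc X hc W g h hg hh
  one_mem' := good_one hN K cc X hc W
  inv_mem' := by
    intro g hg
    have h1 : ∀ m : ℕ, Good K cc X W (g ^ m) := by
      intro m
      induction m with
      | zero => rw [pow_zero]; exact good_one hN K cc X hc W
      | succ m ih => rw [pow_succ]; exact good_mul hP hN K cc X hc W _ _ ih hg
    have h2 : g⁻¹ = g ^ (orderOf g - 1) := by
      have h3 := orderOf_pos g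
      rw [inv_eq_iff_mul_eq_one, ← pow_succ', Nat.sub_add_cancel h3, pow_orderOf_eq_one]
    change Good K cc X W g⁻¹
    rw [h2]
    exact h1 _

end

end Pool.Agent.J6H32.RU
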