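import Pool.Agent.J6H32.RU.Fld
import Pool.Agent.J6H32.RU.Equiv

/-!
# The field of the sets `T₀ ∪ {v}`: Rubin's conjecture and the Frobenius automorphism
-/

set_option autoImplicit false
set_option linter.unusedSectionVars false

open NumberField IsDedekindDomain Polynomial

noncomputable section

namespace Pool.Agent.J6H32.RU

open Pool.Agent.K3h30.RS Pool.Agent.K3h8.RS

section

variable {F H L G P : Type} [Field F] [NumberField F] [Field H] [NumberField H] [Field L]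
  [NumberField L] [Algebra F H] [Algebra H L] [Algebra F L] [IsScalarTower F H L]
  [CommGroup G] [Finite G] [MulSemiringAction G H]
  [AddCommGroup P] [DistribMulAction G P] {N M : ℕ}

/-- the group `U_{S,T₀}` in `L` -/
def io (D : RubinData F H G) (T₀ : Finset (HeightOneSpectrum (𝓞 F))) :
    Additive (D.U T₀) →+ Additive Lˣ :=
  MonoidHom.toAdditive ((Units.map (algebraMap H L : H →* L)).comp (D.U T₀).subtype)

theorem io_val (D : RubinData F H G) (T₀ : Finset (HeightOneSpectrum (𝓞 F)))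
    (a : Additive (D.U T₀)) :
    ((Additive.toMul (io (L := L) D T₀ a) : Lˣ) : L) =
      algebraMap H L ((Additive.toMul a : D.U T₀) : Hˣ) := rfl

/-- the `S`-units are units at `P` -/
theorem io_unit (D : RubinData F H G) (T₀ : Finset (HeightOneSpectrum (𝓞 F)))
    (v : HeightOneSpectrum (𝓞 F)) (hv : v ∉ D.S)
    (w : HeightOneSpectrum (𝓞 H)) (hw : w.asIdeal.comap (algebraMap (𝓞 F) (𝓞 H)) = v.asIdeal)
    (Q : HeightOneSpectrum (𝓞 L)) (hQ : Q.asIdeal.comap (algebraMap (𝓞 H) (𝓞 L)) = w.asIdeal)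
    (a : Additive (D.U T₀)) : Additive.toMul (io (L := L) D T₀ a) ∈ unitsAt Q := by
  change Q.valuation L ((Additive.toMul (io (L := L) D T₀ a) : Lˣ) : L) = 1
  rw [io_val]
  refine val_eq w Q hQ _ ((Additive.toMul a : D.U T₀).2.1 w ?_)
  rw [above_iff (v := v) (above_singleton.2 hw)]
  exact fun h => hv (Finset.mem_coe.1 h)

variable [hG : IsGaloisGroup G F H]

theorem rubin_iff_frob [DecidableEq (HeightOneSpectrum (𝓞 F))] (D : RubinData F H G)
    (T₀ : Finset (HeightOneSpectrum (𝓞 F))) (hT₀ : Disjoint D.S T₀) [AddGroup.FG P]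
    (hP : ∀ p : P, IsOfFinAddOrder p → p = 0) (hN : 0 < N) (hM : 0 < M) (w : ℕ)
    (hNM : M = N * w)
    (hw : ∀ a : Additive (D.U T₀), IsOfFinAddOrder a → w • a = 0)
    (π : P →+ Additive (D.U T₀)) (hπ : Function.Surjective π)
    (hπe : ∀ (γ : G) (p : P), ((Additive.toMul (π (γ • p)) : D.U T₀) : Hˣ) =
      act γ ((Additive.toMul (π p) : D.U T₀) : Hˣ))
    (u₁ : Wedge G D.r (D.U T₀)) (e₁ : D.InER u₁) (s₁ : D.IsStark T₀ u₁)
    (X : Fin u₁.n → Fin D.r → P)
    (hX : ∀ k j, π (X k j) = Additive.ofMul (u₁.x k j))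
    (hc : ∀ k, (N : MonoidAlgebra ℚ G) * u₁.c k ∈ (toQ (G := G)).range)
    (ζ : Lˣ) (hζ : orderOf ζ = M) (s : P →+ Additive Lˣ)
    (hs : ∀ p, N • s p = io D T₀ (π p))
    (res : (L ≃ₐ[F] L) →* G)
    (hres : ∀ (g : L ≃ₐ[F] L) (x : H), g (algebraMap H L x) = algebraMap H L (res g • x))
    (χ₀ : Additive Lˣ →+ QZ) (hχ₀ : χ₀ (Additive.ofMul ζ) = ((1 / M : ℚ) : QZ))
    (E : P →+ ℚ) (hE : ∀ p, ((E p : ℚ) : QZ) = χ₀ (s p))
    (Λ₀ : P →+ MonoidAlgebra ℚ G)
    (hΛ₀ : ∀ (γ : G) (p : P), (Λ₀ p).coeff γ = N * E (γ⁻¹ • p))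
    (K : Coc G P (L ≃ₐ[F] L) N) (hKr : K.res = res)
    (hKκ : ∀ (g : L ≃ₐ[F] L) (k : ℕ), (k : ZMod N) = K.κ g ↔
      au g (Additive.ofMul (ζ ^ w)) = k • Additive.ofMul (ζ ^ w))
    (hKc : ∀ g p, K.c g p = χ₀ (tg s res g p))
    (v : HeightOneSpectrum (𝓞 F)) (hv : v ∉ D.S) (hv₀ : v ∉ T₀) (Q : HeightOneSpectrum (𝓞 L))
    (hQ : Q.asIdeal.comap (algebraMap (𝓞 F) (𝓞 L)) = v.asIdeal)
    (hQM : Q.valuation L (M : L) = 1) (g : L ≃ₐ[F] L)
    (hg : ∀ x : 𝓞 L, Q.valuation L (g (x : L) - (x : L) ^ (Ideal.absNorm v.asIdeal)) < 1) :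
    D.Rubin (insert v T₀) ↔ Good K u₁.c X (Wset D.r π Λ₀) g := by
  obtain ⟨w', hQw, hw'⟩ := exists_under F H L v Q hQ
  have hab : Above {v} w' := above_singleton.2 hw'
  -- the Frobenius automorphism
  have hσ : res g = D.σ v := by
    have : FaithfulSMul G H := IsGaloisGroup.faithful F
    refine FaithfulSMul.eq_of_smul_eq_smul (α := H) fun x => ?_
    have h1 := Pool.Agent.K3h8.RS.restrict v w' hw' (D.unramified v hv) Q hQw g hg (D.σ v)
      (D.frob v hv w' hab) x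
    rw [hres] at h1
    exact (algebraMap H L).injective h1
  -- the character
  obtain ⟨χ, h1, h2, m, hm, h3⟩ := exists_local hM ζ hζ Q hQM
  have hζM : ζ ^ M = 1 := by rw [← hζ]; exact pow_orderOf_eq_one ζ
  have hio := io_unit (L := L) D T₀ v hv w' hw' Q hQw
  have hsu : ∀ p, Additive.toMul (s p) ∈ unitsAt Q := by
    intro p
    have h4 := hio (π p)
    rw [← hs, toMul_nsmul] at h4
    change Q.valuation L (((Additive.toMul (s p) : Lˣ) ^ N : Lˣ) : L) = 1 at h4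
    rw [Units.val_pow_eq_pow_val, map_pow] at h4
    exact (pow_eq_one_iff_of_nonneg zero_le hN.ne').mp h4
  have hag : ∀ x : Additive Lˣ, M • x = 0 → χ x = χ₀ x :=
    agree ζ hζ hM χ χ₀ (h1.trans hχ₀.symm)
  -- the subgroup
  let K' : AddSubgroup P :=
    ((nsmulAddMonoidHom w : Additive (D.U T₀) →+ Additive (D.U T₀)).comp π).ker
  have hK' : ∀ p, p ∈ K' ↔ w • π p = 0 := fun p => Iff.rfl
  have hK'1 : ∀ (n : ℕ) (p : P), 0 < n → n • p ∈ K' → p ∈ K' := by
    intro n p hn hp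
    rw [hK', map_nsmul] at hp
    rw [hK']
    refine hw _ ?_
    rw [isOfFinAddOrder_iff_nsmul_eq_zero]
    refine ⟨w * n, ?_, ?_⟩
    · refine Nat.mul_pos ?_ hn
      rcases Nat.eq_zero_or_pos w with h | h
      · rw [h, mul_zero] at hNM; omega
      · exact h
    · rw [mul_smul]
      exact hp
  have hK'2 : ∀ p ∈ K', M • s p = 0 := by
    intro p hp
    rw [hNM, mul_comm, mul_smul, hs, ← map_nsmul, (hK' p).1 hp, map_zero]
  have hK'3 : ∀ p, π p = 0 → ∀ γ : G, π (γ • p) = 0 := by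
    intro p hp γ
    apply Additive.toMul.injective
    apply Subtype.ext
    rw [hπe, hp]
    exact act_map_one γ
  obtain ⟨t, ht1, ht2⟩ := lift_prescribed K' hK'1 (χ.comp s) E (by
    intro p hp
    rw [hE]
    exact (hag _ (hK'2 p hp)).symm)
  obtain ⟨Λ, hΛ1, hΛ2⟩ := exists_hat (G := G) (N • t)
  have hΛ2' : ∀ (γ : G) (p : P), (Λ p).coeff γ = N * t (γ⁻¹ • p) := by
    intro γ p
    rw [hΛ2, AddMonoidHom.nsmul_apply, nsmul_eq_mul]
  -- Frobenius and the characters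
  have hfr : ∀ y : Additive Lˣ, Additive.toMul y ∈ unitsAt Q →
      Additive.toMul (au g y - (Ideal.absNorm v.asIdeal) • y) ∈ K1 Q := by
    intro y hy
    have h4 := frobK Q (g : L →+* L) _ hg (Additive.toMul y) hy
    rw [toMul_sub, toMul_nsmul, div_eq_mul_inv]
    exact h4
  have hχf : ∀ y : Additive Lˣ, Additive.toMul y ∈ unitsAt Q →
      χ (au g y) = (Ideal.absNorm v.asIdeal) • χ y := by
    intro y hy
    have h4 := hfr y hy
    have h5 := (h2 _ (K1_le Q h4)).2 h4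
    rw [ofMul_toMul, map_sub, map_nsmul, sub_eq_zero] at h5
    exact h5
  refine rubin_iff_good D T₀ hT₀ hP hN π hπ hπe K u₁ e₁ s₁ X hX hc Λ₀ v hv hv₀ g
    ((χ.comp (io D T₀)).comp π) m hm ?_ Λ hΛ1 ?_ ?_ ?_ ?_ (by rw [hKr, hσ]) ?_
  · intro p
    exact h3 _ (hio (π p))
  · intro γ p
    rw [hΛ2', ← nsmul_eq_mul, AddCircle.coe_nsmul, ht1]
    change N • χ (s (γ⁻¹ • p)) = χ (io D T₀ (π (γ⁻¹ • p)))
    rw [← map_nsmul, hs]
  · intro p
    have h4 : ∀ γ : G, (χ.comp (io D T₀)).comp π (γ • p) = 0 ↔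
        w'.valuation H (γ • (((Additive.toMul (π p) : D.U T₀) : Hˣ) : H) - 1) < 1 := by
      intro γ
      have h5 := h2 _ (hio (π (γ • p)))
      rw [ofMul_toMul] at h5
      change χ (io D T₀ (π (γ • p))) = 0 ↔ _
      rw [h5, mem_K1, io_val, hπe, act_val, ← map_one (algebraMap H L), ← map_sub,
        val_lt_iff w' Q hQw]
    obtain ⟨htr1, htr2⟩ := Pool.Agent.K3h25.RS.t_TRANS F H G v w' hab
    constructor
    · intro h
      refine ⟨(Additive.toMul (π p) : D.U T₀).2.1, fun u hu => ?_⟩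
      obtain ⟨v', hv', huv⟩ := above_mem hu
      rw [Finset.mem_coe, Finset.mem_insert] at hv'
      rcases hv' with rfl | hv'
      · obtain ⟨γ, hγ⟩ := htr2 u huv
        rw [hγ, smul_sub, smul_one]
        exact (h4 γ).1 (h γ)
      · exact (Additive.toMul (π p) : D.U T₀).2.2 u ((above_iff huv).2 (Finset.mem_coe.2 hv'))
    · intro h γ
      rw [h4]
      obtain ⟨u, hu, hγ⟩ := htr1 γ
      rw [← smul_one γ, ← smul_sub, ← hγ]
      exact h.2 u ((above_iff hu).2 (Finset.mem_coe.2 (Finset.mem_insert_self v T₀)))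
  · intro p hp
    ext γ
    rw [hΛ2', hΛ₀, ht2]
    rw [hK', hK'3 p hp, smul_zero]
  · rw [hKκ]
    have h4 : (Additive.toMul (Additive.ofMul (ζ ^ w)) : Lˣ) ∈ unitsAt Q := by
      change Q.valuation L ((ζ ^ w : Lˣ) : L) = 1
      have h5 : (Q.valuation L ((ζ ^ w : Lˣ) : L)) ^ M = 1 := by
        rw [← map_pow, ← Units.val_pow_eq_pow_val, ← pow_mul, mul_comm, pow_mul, hζM, one_pow,
          Units.val_one, map_one]
      exact (pow_eq_one_iff_of_nonneg zero_le hM.ne').mp h5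
    have h5 := hfr _ h4
    have h6 : M • Additive.ofMul (ζ ^ w) = 0 := by
      rw [← ofMul_pow, ← pow_mul, mul_comm, pow_mul, hζM, one_pow, ofMul_one]
    have h7 := root_eq_one Q M hQM _ (by
      rw [← toMul_nsmul, nsmul_sub, ← map_nsmul, h6, map_zero, smul_comm, h6, smul_zero, sub_zero,
        toMul_zero]) h5
    rw [← sub_eq_zero]
    apply Additive.toMul.injective
    rw [h7, toMul_zero]
  · intro p
    rw [coeff_delta_mul, mul_one, hΛ2', hΛ2', inv_one, one_smul, hKc]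
    have h4 : ((N : ℚ) * t p - (Ideal.absNorm v.asIdeal : ℚ) * (N * t ((D.σ v)⁻¹ • p))) / N =
        t p - Ideal.absNorm v.asIdeal * t ((D.σ v)⁻¹ • p) := by
      have : (N : ℚ) ≠ 0 := by positivity
      field_simp
    rw [h4, AddCircle.coe_sub, ← nsmul_eq_mul, AddCircle.coe_nsmul, ht1, ht1]
    change χ (s p) - (Ideal.absNorm v.asIdeal) • χ (s ((D.σ v)⁻¹ • p)) = _
    rw [← hχf _ (hsu _), ← map_sub, ← hσ, ← tg_apply, hag]
    rw [hNM, mul_comm, mul_smul, tg_tors s res (fun p => io D T₀ (π p)) hs ?_ g p, smul_zero]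
    intro g' p'
    apply Additive.toMul.injective
    apply Units.ext
    rw [au_val, io_val, io_val, hres, hπe, act_val]

end

end Pool.Agent.J6H32.RU
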