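import Pool.Agent.J6H32.RU.Grp

/-!
# The field of the sets `{v}`: presentations and the form of the integral homomorphisms
-/

set_option autoImplicit false
set_option linter.unusedSectionVars false

open Filter Topology

noncomputable section

namespace Pool.Agent.J6H32.RU

open Pool.Agent.K3h30.RS

section pres

variable {G A : Type} [CommGroup G] [Finite G] [AddCommGroup A] [DistribMulAction G A]

/-- the action of `G` on a free module -/
@[reducible] def freeAct (G : Type) [CommGroup G] (m : ℕ) : DistribMulAction G (Fin m → G → ℤ) where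
  smul g f := fun i γ => f i (g⁻¹ * γ)
  one_smul f := by
    funext i γ
    change f i (1⁻¹ * γ) = f i γ
    rw [inv_one, one_mul]
  mul_smul g h f := by
    funext i γ
    change f i ((g * h)⁻¹ * γ) = f i (h⁻¹ * (g⁻¹ * γ))
    rw [mul_inv, mul_comm g⁻¹, mul_assoc]
  smul_zero g := rfl
  smul_add g f f' := rfl

theorem exists_pres (G A : Type) [CommGroup G] [Finite G] [AddCommGroup A] [DistribMulAction G A]
    [AddGroup.FG A] :
    ∃ (P : Type) (_ : AddCommGroup P) (_ : DistribMulAction G P) (π : P →+ A),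
      AddGroup.FG P ∧ Module.Free ℤ P ∧ (∀ p : P, IsOfFinAddOrder p → p = 0) ∧
      (∀ (γ : G) (p : P), π (γ • p) = γ • π p) ∧ Function.Surjective π := by
  classical
  let _ := Fintype.ofFinite G
  obtain ⟨m, a, ha⟩ : ∃ (m : ℕ) (a : Fin m → A), AddSubgroup.closure (Set.range a) = ⊤ := by
    obtain ⟨s, hs⟩ := (inferInstance : AddGroup.FG A).out
    refine ⟨s.card, fun i => (s.equivFin.symm i : A), ?_⟩
    rw [← hs]
    congr 1
    ext x
    constructor
    · rintro ⟨i, rfl⟩
      exact (s.equivFin.symm i).2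
    · intro hx
      exact ⟨s.equivFin ⟨x, hx⟩, by simp⟩
  let _ := freeAct G m
  refine ⟨Fin m → G → ℤ, inferInstance, inferInstance,
    { toFun := fun f => ∑ i, ∑ γ, f i γ • (γ • a i)
      map_zero' := by simp
      map_add' := fun f f' => by
        simp only [Pi.add_apply, add_smul, Finset.sum_add_distrib] }, ?_, ?_, ?_, ?_, ?_⟩
  · exact Module.Finite.iff_addGroup_fg.1 inferInstance
  · infer_instance
  · intro p hp
    rw [isOfFinAddOrder_iff_nsmul_eq_zero] at hp
    obtain ⟨n, hn, h⟩ := hp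
    funext i γ
    have h1 := congrFun (congrFun h i) γ
    simp only [Pi.smul_apply, Pi.zero_apply, nsmul_eq_mul, mul_eq_zero] at h1
    rcases h1 with h1 | h1
    · exact absurd h1 (by exact_mod_cast hn.ne')
    · exact h1
  · intro g f
    change ∑ i, ∑ γ, f i (g⁻¹ * γ) • (γ • a i) = g • ∑ i, ∑ γ, f i γ • (γ • a i)
    rw [Finset.smul_sum]
    refine Finset.sum_congr rfl fun i _ => ?_
    rw [Finset.smul_sum]
    refine Fintype.sum_equiv (Equiv.mulLeft g⁻¹) _ _ fun γ => ?_
    rw [Equiv.coe_mulLeft, smul_comm g, smul_smul, mul_inv_cancel_left]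
  · rw [← AddMonoidHom.range_eq_top, eq_top_iff, ← ha, AddSubgroup.closure_le]
    rintro _ ⟨i, rfl⟩
    refine ⟨Pi.single i (Pi.single 1 1), ?_⟩
    change ∑ j, ∑ γ, (Pi.single i (Pi.single 1 1) : Fin m → G → ℤ) j γ • (γ • a j) = a i
    rw [Finset.sum_eq_single i]
    · rw [Finset.sum_eq_single 1]
      · simp
      · intro γ _ hγ
        simp [hγ]
      · intro h
        exact absurd (Finset.mem_univ _) h
    · intro j _ hj
      simp [hj]
    · intro h
      exact absurd (Finset.mem_univ _) h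

end pres

section repr

variable {G P : Type} [CommGroup G] [Finite G] [AddCommGroup P] [DistribMulAction G P]

/-- the integral homomorphisms -/
theorem repr (χ : P →+ QZ) (m : ℕ)
    (hm : 0 < m) (hχ : ∀ p, m • χ p = 0) (Λ : P →+ MonoidAlgebra ℚ G)
    (hΛ1 : ∀ (γ : G) (p : P), Λ (γ • p) = MonoidAlgebra.single γ 1 * Λ p)
    (hΛ2 : ∀ (γ : G) (p : P), (((Λ p).coeff γ : ℚ) : QZ) = χ (γ⁻¹ • p))
    (f : P →+ MonoidAlgebra ℚ G)
    (hf1 : ∀ (γ : G) (p : P), f (γ • p) = MonoidAlgebra.single γ 1 * f p)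
    (hf2 : ∀ p, (∀ γ : G, χ (γ • p) = 0) → f p ∈ (toQ (G := G)).range) :
    ∃ (y : P →+ MonoidAlgebra ℤ G) (a : MonoidAlgebra ℤ G),
      (∀ (γ : G) (p : P), y (γ • p) = MonoidAlgebra.single γ 1 * y p) ∧
      ∀ p, f p = toQ (y p) + toQ a * Λ p := by
  let B : AddSubgroup P :=
    { carrier := {p | ∀ γ : G, χ (γ • p) = 0}
      add_mem' := by
        intro a b ha hb γ
        rw [smul_add, map_add, ha γ, hb γ, add_zero]
      zero_mem' := by
        intro γ
        rw [smul_zero, map_zero]
      neg_mem' := by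
        intro a ha γ
        rw [smul_neg, map_neg, ha γ, neg_zero] }
  have h1 : ∀ b : B, ∃ z : MonoidAlgebra ℤ G, toQ z = f b := fun b => hf2 b b.2
  choose z hz using h1
  let ψ : B →+ MonoidAlgebra ℤ G :=
    { toFun := z
      map_zero' := by
        apply toQ_injective
        rw [hz, map_zero]
        exact map_zero f
      map_add' := by
        intro a b
        apply toQ_injective
        rw [hz, map_add, hz, hz]
        exact map_add f _ _ }
  obtain ⟨y, a, hy, h⟩ := Pool.Agent.K3h12.RSE.t_EXT G P Unit 1 m hm (fun _ => χ)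
    (fun _ p => hχ p) (fun _ => Λ) (fun _ γ p => hΛ1 γ p)
    (fun _ γ p => by rw [hΛ2, one_smul]) B
    (fun p => ⟨fun hp _ γ => hp γ, fun hp γ => hp () γ⟩) ψ (by
      intro γ x y hxy
      apply toQ_injective
      change toQ (z y) = toQ (_ * z x)
      rw [hz, map_mul, hz, toQ_single, hxy, hf1])
  refine ⟨y, a (), hy, fun p => ?_⟩
  have hp : m • p ∈ B := by
    intro γ
    rw [smul_comm, map_nsmul, hχ]
  have h2 := h ⟨m • p, hp⟩
  have h3 : toQ (ψ ⟨m • p, hp⟩) = f (m • p) := hz _
  have h4 : Λ ((⟨m • p, hp⟩ : B) : P) = m * Λ p := by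
    change Λ (m • p) = _
    rw [map_nsmul, nsmul_eq_mul]
  have h5 : toQ (y ((⟨m • p, hp⟩ : B) : P)) = m * toQ (y p) := by
    change toQ (y (m • p)) = _
    rw [map_nsmul, nsmul_eq_mul, map_mul, map_natCast]
  rw [h3, Nat.cast_one, one_mul, Finset.univ_unique, Finset.sum_singleton, map_nsmul,
    nsmul_eq_mul, h4, h5] at h2
  apply natCast_cancel hm
  rw [h2]
  have h6 : a default = a () := rfl
  rw [h6]
  ring

end repr

end Pool.Agent.J6H32.RU
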