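import Pool.Agent.J6H32.RU.Spl
import Pool.Agent.W352.ChAbs.Main
import Pool.Agent.W401.Cheb.Frob

/-!
# Sets of prime ideals given by a subgroup of a Galois group: the field and the density
-/

set_option autoImplicit false
set_option linter.unusedSectionVars false

open NumberField IsDedekindDomain Filter Topology

noncomputable section

namespace Pool.Agent.J6H32.RU

open Pool.Agent.K3h30.RS Pool.Agent.K3h8.RS Pool.Agent.K3h43.RS

variable {F L : Type} [Field F] [NumberField F] [Field L] [NumberField L] [Algebra F L]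

/-- integers of the fixed field which are moved -/
theorem exists_moved [IsGalois F L] (Γ₀ : Subgroup (L ≃ₐ[F] L)) (g : L ≃ₐ[F] L) (hg : g ∉ Γ₀) :
    ∃ a : 𝓞 (IntermediateField.fixedField Γ₀),
      g (((a : 𝓞 (IntermediateField.fixedField Γ₀)) : IntermediateField.fixedField Γ₀) : L) ≠
        ((a : IntermediateField.fixedField Γ₀) : L) := by
  by_contra hcon
  push Not at hcon
  apply hg
  have h0 := IntermediateField.fixingSubgroup_fixedField Γ₀
  rw [← h0, IntermediateField.mem_fixingSubgroup_iff]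
  intro x hx
  obtain ⟨c, d, hd, hcd⟩ := IsFractionRing.div_surjective
    (A := 𝓞 (IntermediateField.fixedField Γ₀)) (⟨x, hx⟩ : IntermediateField.fixedField Γ₀)
  have h1 : x = ((algebraMap (𝓞 (IntermediateField.fixedField Γ₀))
      (IntermediateField.fixedField Γ₀) c : IntermediateField.fixedField Γ₀) : L) /
      ((algebraMap (𝓞 (IntermediateField.fixedField Γ₀))
      (IntermediateField.fixedField Γ₀) d : IntermediateField.fixedField Γ₀) : L) := by
    have h2 := congrArg Subtype.val hcd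
    exact h2.symm
  rw [h1, map_div₀]
  congr 1
  · exact hcon c
  · exact hcon d

variable {Γ₀ : Subgroup (L ≃ₐ[F] L)} {bad : Finset (HeightOneSpectrum (𝓞 F))}
  {R : HeightOneSpectrum (𝓞 F) → Prop}
  (hR : ∀ v : HeightOneSpectrum (𝓞 F), v ∉ bad → ∀ (Q : HeightOneSpectrum (𝓞 L))
    (g : L ≃ₐ[F] L), FrobAt v Q g → (R v ↔ g ∈ Γ₀))

include hR in
/-- the prime ideals which split completely in the fixed field -/
theorem split_iff [hgal : IsGalois F L] : ∃ bad' : Finset (HeightOneSpectrum (𝓞 F)),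
    ∀ v : HeightOneSpectrum (𝓞 F), v ∉ bad' →
      (R v ↔ SplitsIn (IntermediateField.fixedField Γ₀) v) := by
  classical
  let K := IntermediateField.fixedField Γ₀
  have hcomp : ∀ x : 𝓞 F, algebraMap (𝓞 K) (𝓞 L) (algebraMap (𝓞 F) (𝓞 K) x) =
      algebraMap (𝓞 F) (𝓞 L) x := by
    intro x
    rw [← IsScalarTower.algebraMap_apply]
  have hmov : ∀ g : L ≃ₐ[F] L, g ∉ Γ₀ → ∃ a : 𝓞 K, g (((a : 𝓞 K) : K) : L) ≠ ((a : K) : L) :=
    exists_moved Γ₀
  choose! a ha using hmov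
  have hbad1 : {v : HeightOneSpectrum (𝓞 F) | v.valuation F ((discr K : ℤ) : F) < 1}.Finite :=
    finite_lt _ (by exact_mod_cast discr_ne_zero K)
  have hbad2 : ∀ g : L ≃ₐ[F] L, g ∉ Γ₀ → {v : HeightOneSpectrum (𝓞 F) |
      ∃ w : HeightOneSpectrum (𝓞 L), w.valuation L (g ((a g : K) : L) - ((a g : K) : L)) < 1 ∧
      w.asIdeal.comap (algebraMap (𝓞 F) (𝓞 L)) = v.asIdeal}.Finite := fun g hg =>
    finite_under _ (sub_ne_zero.mpr (ha g hg))
  have hbad : (({v : HeightOneSpectrum (𝓞 F) | v.valuation F ((discr K : ℤ) : F) < 1} ∪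
      {v : HeightOneSpectrum (𝓞 F) | ∃ g : L ≃ₐ[F] L, g ∉ Γ₀ ∧
      ∃ w : HeightOneSpectrum (𝓞 L), w.valuation L (g ((a g : K) : L) - ((a g : K) : L)) < 1 ∧
      w.asIdeal.comap (algebraMap (𝓞 F) (𝓞 L)) = v.asIdeal}) ∪ (bad : Set _)).Finite := by
    refine Set.Finite.union (Set.Finite.union hbad1 ?_) bad.finite_toSet
    refine (Set.finite_iUnion (ι := {g : L ≃ₐ[F] L // g ∉ Γ₀}) fun g => hbad2 g.1 g.2).subset ?_
    rintro v ⟨g, hg, hv⟩
    exact Set.mem_iUnion.mpr ⟨⟨g, hg⟩, hv⟩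
  refine ⟨hbad.toFinset, fun v hv => ?_⟩
  rw [Set.Finite.mem_toFinset, Set.mem_union, not_or, Set.mem_union, not_or] at hv
  obtain ⟨⟨hv1, hv2⟩, hv3⟩ := hv
  have hv3' : v ∉ bad := fun h => hv3 (Finset.mem_coe.2 h)
  constructor
  · intro hv
    refine ⟨squarefree_of_discr v hv1, ?_⟩
    rintro q ⟨v', hv', hqv⟩
    rw [Set.mem_singleton_iff] at hv'
    subst hv'
    obtain ⟨Q, hQ⟩ := exists_over (L := L) q
    have hQv : Q.asIdeal.comap (algebraMap (𝓞 F) (𝓞 L)) = v'.asIdeal := by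
      rw [← hqv, ← hQ, Ideal.comap_comap]
      congr 1
    obtain ⟨g, hg⟩ := exists_frob F L v' Q hQv
    have hg' : g ∈ Γ₀ := (hR v' hv3' Q g ⟨hQv, hg⟩).1 hv
    refine norm_eq_of v' q hqv fun x => ?_
    have h1 := hg (algebraMap (𝓞 K) (𝓞 L) x)
    have h2 : g ((algebraMap (𝓞 K) (𝓞 L) x : 𝓞 L) : L) =
        ((algebraMap (𝓞 K) (𝓞 L) x : 𝓞 L) : L) := (x : K).2 ⟨g, hg'⟩
    rw [h2, Valuation.map_sub_swap] at h1
    have h3 : ((algebraMap (𝓞 K) (𝓞 L) (x ^ Ideal.absNorm v'.asIdeal - x) : 𝓞 L) : L) =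
        ((algebraMap (𝓞 K) (𝓞 L) x : 𝓞 L) : L) ^ Ideal.absNorm v'.asIdeal -
          ((algebraMap (𝓞 K) (𝓞 L) x : 𝓞 L) : L) := by
      rw [map_sub, map_pow]
      push_cast
      rfl
    rw [← h3] at h1
    rw [← hQ, Ideal.mem_comap, ← Q.valuation_lt_one_iff_mem (K := L)]
    exact h1
  · intro hv
    obtain ⟨Q, hQ⟩ := exists_over (L := L) v
    obtain ⟨g, hg⟩ := exists_frob F L v Q hQ
    rw [hR v hv3' Q g ⟨hQ, hg⟩]
    by_contra hgn
    apply hv2
    refine ⟨g, hgn, Q, ?_, hQ⟩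
    obtain ⟨q, hQq, hqv⟩ := exists_under F K L v Q hQ
    have hN := hv.2 q ⟨v, rfl, hqv⟩
    have h1 := hg (algebraMap (𝓞 K) (𝓞 L) (a g))
    have h2 : (a g) ^ Ideal.absNorm v.asIdeal - a g ∈ q.asIdeal := by
      rw [← hN]
      exact pow_norm q (a g)
    have h3 : Q.valuation L (((algebraMap (𝓞 K) (𝓞 L) (a g) : 𝓞 L) : L) ^
        Ideal.absNorm v.asIdeal - ((algebraMap (𝓞 K) (𝓞 L) (a g) : 𝓞 L) : L)) < 1 := by
      rw [← hQq, Ideal.mem_comap, ← Q.valuation_lt_one_iff_mem (K := L), map_sub, map_pow] at h2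
      exact h2
    have h4 := Valuation.map_add_lt _ h1 h3
    have h5 : ((algebraMap (𝓞 K) (𝓞 L) (a g) : 𝓞 L) : L) = ((a g : K) : L) := rfl
    rw [h5] at h4
    convert h4 using 2
    ring

/-- the degree of the fixed field -/
theorem finrank_fixed [IsGalois F L] :
    Module.finrank F (IntermediateField.fixedField Γ₀) = Γ₀.index := by
  have h1 : Module.finrank (IntermediateField.fixedField Γ₀) L = Nat.card Γ₀ :=
    IntermediateField.finrank_fixedField_eq_card Γ₀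
  have h2 := Module.finrank_mul_finrank F (IntermediateField.fixedField Γ₀) L
  have h3 : Nat.card (L ≃ₐ[F] L) = Module.finrank F L := IsGalois.card_aut_eq_finrank F L
  have h4 := Γ₀.card_mul_index
  rw [h1, ← h3, ← h4, mul_comm (Nat.card Γ₀)] at h2
  exact Nat.eq_of_mul_eq_mul_right Nat.card_pos h2

end Pool.Agent.J6H32.RU
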